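import Pool.Agent.H602.MD.Main

/-!
# Models of polynomial size
-/

set_option autoImplicit false

open Finset
open scoped Pointwise

namespace Pool.Agent.H602.MD

theorem log_two_ge : (1 : ℝ) / 2 < Real.log 2 := by
  have := Real.log_two_gt_d9
  linarith

/-- the parameters -/
theorem params {n : ℕ} (hn : 2 ≤ n) {K : ℝ} (hK : 1 ≤ K) {A : ℝ}
    (hA : A = 100000000000 * n * (2 * K) ^ (30000 : ℝ)) {J k : ℕ} (hJ : J = ⌈lenN n K⌉₊)
    (hk : k = Nat.log 2 J + 2) :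
    100000000000 ≤ A ∧ 1 ≤ J ∧ 2 * J < 2 ^ k ∧ Real.log (n * J) ≤ 2 * A ∧ (k : ℝ) ≤ 3 * A := by
  have hnR : (2 : ℝ) ≤ n := by exact_mod_cast hn
  have hW : (1 : ℝ) ≤ (2 * K) ^ (30000 : ℝ) := Real.one_le_rpow (by linarith) (by norm_num)
  set W : ℝ := (2 * K) ^ (30000 : ℝ) with hWdef
  have hA1 : 100000000000 * (n : ℝ) ≤ A := by
    rw [hA]
    have : 0 ≤ 100000000000 * (n : ℝ) := by positivity
    nlinarith
  have hA0 : 100000000000 ≤ A := by linarith
  have hlen : lenN n K = Real.exp A := by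
    unfold lenN
    rw [hA]
  have hexp1 : 1 ≤ Real.exp A := Real.one_le_exp (by linarith)
  have hJ1 : 1 ≤ J := by
    rw [hJ, hlen]
    exact Nat.ceil_pos.2 (Real.exp_pos A)
  have hJR : (1 : ℝ) ≤ J := by exact_mod_cast hJ1
  have hJle : (J : ℝ) ≤ 2 * Real.exp A := by
    have := (Nat.ceil_lt_add_one (Real.exp_pos A).le).le
    rw [hJ, hlen]
    linarith
  have hlogJ : Real.log J ≤ A + 1 := by
    have h1 := Real.log_le_log (by linarith) hJle
    rw [Real.log_mul (by norm_num) (Real.exp_pos A).ne', Real.log_exp] at h1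
    have := Real.log_two_lt_d9
    linarith
  refine ⟨hA0, hJ1, ?_, ?_, ?_⟩
  · rw [hk, pow_succ, mul_comm]
    exact Nat.mul_lt_mul_of_pos_right (Nat.lt_pow_succ_log_self (by norm_num) J) (by norm_num)
  · rw [Real.log_mul (by positivity) (by positivity)]
    have h1 : Real.log n ≤ n := (Real.log_le_sub_one_of_pos (by positivity)).trans (by linarith)
    linarith
  · have h1 : 2 ^ Nat.log 2 J ≤ J := Nat.pow_log_le_self 2 (by omega)
    have h2 : (2 : ℝ) ^ Nat.log 2 J ≤ J := by exact_mod_cast h1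
    have h3 := Real.log_le_log (by positivity) h2
    rw [Real.log_pow] at h3
    have h4 := log_two_ge
    have h5 : (0 : ℝ) ≤ Nat.log 2 J := Nat.cast_nonneg _
    rw [hk]
    push_cast
    nlinarith

theorem numeric {n : ℕ} (hn : 2 ≤ n) {K : ℝ} (hK : 1 ≤ K) {A : ℝ}
    (hA : A = 100000000000 * n * (2 * K) ^ (30000 : ℝ)) :
    400 * A ^ 3 * K ^ (2 * n + 1) ≤ (2 * K) ^ (50000 * n) := by
  have hW : (2 * K) ^ (30000 : ℝ) = (2 * K) ^ (30000 : ℕ) := by
    rw [← Real.rpow_natCast]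
    norm_num
  rw [hA, hW]
  have h2K : 2 ≤ 2 * K := by linarith
  have h1 : (n : ℝ) ≤ (2 * K) ^ n := by
    have h3 : (n : ℝ) ≤ 2 ^ n := by exact_mod_cast Nat.lt_two_pow_self.le
    exact h3.trans (pow_le_pow_left₀ (by norm_num) h2K n)
  have h2 : (400 * 100000000000 ^ 3 : ℝ) ≤ (2 * K) ^ 119 := by
    refine le_trans ?_ (pow_le_pow_left₀ (by norm_num) h2K 119)
    norm_num
  have h3 : K ^ (2 * n + 1) ≤ (2 * K) ^ (2 * n + 1) := pow_le_pow_left₀ (by linarith) (by linarith) _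
  have h4 : (n : ℝ) ^ 3 ≤ ((2 * K) ^ n) ^ 3 := pow_le_pow_left₀ (Nat.cast_nonneg _) h1 3
  calc 400 * (100000000000 * n * (2 * K) ^ 30000) ^ 3 * K ^ (2 * n + 1)
      = (400 * 100000000000 ^ 3) * (n : ℝ) ^ 3 * ((2 * K) ^ 30000) ^ 3 * K ^ (2 * n + 1) := by ring
    _ ≤ (2 * K) ^ 119 * ((2 * K) ^ n) ^ 3 * ((2 * K) ^ 30000) ^ 3 * (2 * K) ^ (2 * n + 1) := by
        gcongr
    _ = (2 * K) ^ (119 + n * 3 + 30000 * 3 + (2 * n + 1)) := by
        rw [← pow_mul, ← pow_mul, ← pow_add, ← pow_add, ← pow_add]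
    _ ≤ (2 * K) ^ (50000 * n) := pow_le_pow_right₀ (by linarith) (by omega)

/-- **Sets of small doubling in torsion-free groups have models in cyclic groups of polynomial
size.** -/
theorem model {G : Type*} [AddCommGroup G] [DecidableEq G]
    (htf : ∀ (n : ℕ) (x : G), n ≠ 0 → n • x = 0 → x = 0) {K : ℝ} {n : ℕ} (hn : 2 ≤ n)
    {S : Finset G} (hS : S.Nonempty) (hK : ((S + S).card : ℝ) ≤ K * S.card) :
    ∃ (m : ℕ) (φ : G → ZMod m), 0 < m ∧ (m : ℝ) ≤ (2 * K) ^ (50000 * n) * S.card ∧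
      IsoN n S φ := by
  classical
  have hK1 : 1 ≤ K := one_le_K hS hK
  have hSpos : 0 < S.card := hS.card_pos
  have hSR : (1 : ℝ) ≤ S.card := by exact_mod_cast hSpos
  have hnR : (2 : ℝ) ≤ n := by exact_mod_cast hn
  obtain ⟨θ, hθ, hb⟩ := compressGN htf hn hS hK
  have hc' : (S.image θ).card = S.card := hθ.card_image hn
  have hS' : (S.image θ).Nonempty := hS.image θ
  have hK' : ((S.image θ + S.image θ).card : ℝ) ≤ K * (S.image θ).card := by
    rw [hc']
    refine le_trans ?_ hK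
    exact_mod_cast hθ.card_sum hn
  set A : ℝ := 100000000000 * n * (2 * K) ^ (30000 : ℝ) with hA
  set J : ℕ := ⌈lenN n K⌉₊ with hJ
  set k : ℕ := Nat.log 2 J + 2 with hk
  obtain ⟨hA0, hJ1, hk1, hlog, hkA⟩ := params hn hK1 hA hJ hk
  have hJR : (1 : ℝ) ≤ J := by exact_mod_cast hJ1
  have hlog0 : 0 ≤ Real.log (n * J) := Real.log_nonneg (by nlinarith)
  have hSX : ∀ x ∈ S.image θ, 0 ≤ x ∧ x ≤ (J * (S.image θ).card : ℕ) := by
    intro x hx
    obtain ⟨y, hy, rfl⟩ := mem_image.1 hx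
    obtain ⟨h1, h2⟩ := hb y hy
    refine ⟨h1, ?_⟩
    rw [hc']
    have h3 : (θ y : ℝ) ≤ ((J * S.card : ℕ) : ℝ) := by
      push_cast
      refine h2.le.trans (mul_le_mul_of_nonneg_right ?_ (by linarith))
      exact Nat.le_ceil _
    exact_mod_cast h3
  have hnum := numeric hn hK1 hA
  have hKp : 1 ≤ K ^ (2 * n + 1) := one_le_pow₀ hK1
  have hA3 : 0 < A ^ 3 := by positivity
  suffices hmain : ∃ m : ℕ, 0 < m ∧ (m : ℝ) ≤ 400 * A ^ 3 * K ^ (2 * n + 1) * S.card ∧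
      ∀ a ∈ n • S.image θ - n • S.image θ, a ≠ 0 → ¬ (m : ℤ) ∣ a by
    obtain ⟨m, hm0, hm1, hm2⟩ := hmain
    refine ⟨m, fun x => ((θ x : ℤ) : ZMod m), hm0, ?_, hθ.comp (isoN_cast hm2)⟩
    exact hm1.trans (mul_le_mul_of_nonneg_right hnum (by linarith))
  have hA1 : 1 ≤ A := by linarith
  have hA2 : A ≤ A ^ 2 := by nlinarith
  have hA23 : A ^ 2 ≤ A ^ 3 := by nlinarith [sq_nonneg A]
  rcases le_or_gt ((n * J) ^ k) (S.image θ).card with hbig | hsm
  · obtain ⟨m, hm0, hm1, hm2⟩ := large hS' hK' (by omega) hJ1 hSX hk1 hbig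
      (w := 6 * A ^ 2) (by
        calc (k : ℝ) * Real.log (n * J) ≤ (3 * A) * (2 * A) :=
              mul_le_mul hkA hlog hlog0 (by linarith)
          _ = 6 * A ^ 2 := by ring)
    refine ⟨m, hm0, hm1.trans ?_, hm2⟩
    rw [hc']
    apply mul_le_mul_of_nonneg_right _ (by linarith)
    apply mul_le_mul_of_nonneg_right _ (by linarith)
    have h1 : 8 * (2 * (6 * A ^ 2) + 1) * (1 + Real.log (n * J)) ≤
        8 * (2 * (6 * A ^ 2) + 1) * (1 + 2 * A) := by
      apply mul_le_mul_of_nonneg_left _ (by positivity)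
      linarith
    have h2 : 8 * (2 * (6 * A ^ 2) + 1) * (1 + 2 * A) + 2 ≤ 400 * A ^ 3 := by nlinarith
    linarith
  · obtain ⟨c0, hc0⟩ : ∃ c0 : ℕ, c0 = 20000000 := ⟨_, rfl⟩
    obtain ⟨M, hM⟩ : ∃ M : ℕ, M = ⌈32 * A ^ 2 * K ^ (2 * n + 1) * S.card⌉₊ + c0 := ⟨_, rfl⟩
    have hMle : 20000000 ≤ M := by
      rw [hM, hc0]
      exact Nat.le_add_left _ _
    have hc0R : (c0 : ℝ) = 20000000 := by
      rw [hc0]
      norm_num
    have hkS : Real.log (n * (J * (S.image θ).card) : ℕ) ≤ 8 * A ^ 2 := by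
      have h1 : n * (J * (S.image θ).card) ≤ (n * J) ^ (k + 1) := by
        rw [pow_succ', ← mul_assoc]
        exact Nat.mul_le_mul_left _ hsm.le
      have h2 : ((n * (J * (S.image θ).card) : ℕ) : ℝ) ≤ ((n : ℝ) * J) ^ (k + 1) := by exact_mod_cast h1
      have h3 : (0 : ℝ) < ((n * (J * (S.image θ).card) : ℕ) : ℝ) := by
        rw [hc']
        have : 0 < n * (J * S.card) := Nat.mul_pos (by omega) (Nat.mul_pos hJ1 hSpos)
        exact_mod_cast this
      have h4 := Real.log_le_log h3 h2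
      rw [Real.log_pow] at h4
      refine h4.trans ?_
      push_cast
      calc ((k : ℝ) + 1) * Real.log (n * J) ≤ (3 * A + 1) * (2 * A) :=
            mul_le_mul (by linarith) hlog hlog0 (by linarith)
        _ ≤ 8 * A ^ 2 := by nlinarith
    obtain ⟨m, hm0, hm1, hm2⟩ := small hS' hK' (n := n) (X := J * (S.image θ).card) hSX
      (Nat.mul_pos (by omega) (Nat.mul_pos hJ1 (by rw [hc']; exact hSpos))) (M := M)
      hMle (by
        rw [hc'] at hkS ⊢
        have h1 : K ^ (2 * n) ≤ K ^ (2 * n + 1) := pow_le_pow_right₀ hK1 (by omega)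
        have h2 : K ^ (2 * n) * (S.card : ℝ) * Real.log (n * (J * S.card) : ℕ) ≤
            K ^ (2 * n + 1) * S.card * (8 * A ^ 2) := by
          apply mul_le_mul _ hkS _ (by positivity)
          · exact mul_le_mul_of_nonneg_right h1 (by linarith)
          · apply Real.log_nonneg
            have : 1 ≤ n * (J * S.card) := Nat.mul_pos (by omega) (Nat.mul_pos hJ1 hSpos)
            exact_mod_cast this
        have h3 := Nat.le_ceil (32 * A ^ 2 * K ^ (2 * n + 1) * S.card)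
        rw [hM]
        push_cast at h2 ⊢
        rw [hc0R]
        linarith)
    refine ⟨m, hm0.pos, ?_, hm2⟩
    have h1 : (m : ℝ) ≤ M := by exact_mod_cast hm1
    refine h1.trans ?_
    have h2 := (Nat.ceil_lt_add_one (a := 32 * A ^ 2 * K ^ (2 * n + 1) * S.card) (by positivity)).le
    rw [hM]
    push_cast
    rw [hc0R]
    have h3 : (100000000000 : ℝ) ≤ A ^ 3 := by linarith
    have h4 : A ^ 3 ≤ A ^ 3 * K ^ (2 * n + 1) := le_mul_of_one_le_right hA3.le hKp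
    have h5 : A ^ 3 * K ^ (2 * n + 1) ≤ A ^ 3 * K ^ (2 * n + 1) * S.card :=
      le_mul_of_one_le_right (by positivity) hSR
    have h6 : 32 * A ^ 2 * K ^ (2 * n + 1) * S.card ≤ 32 * A ^ 3 * K ^ (2 * n + 1) * S.card := by
      gcongr
    linarith

/-- prime moduli -/
theorem modelPrime {G : Type*} [AddCommGroup G] [DecidableEq G]
    (htf : ∀ (n : ℕ) (x : G), n ≠ 0 → n • x = 0 → x = 0) {K : ℝ} {n : ℕ} (hn : 2 ≤ n)
    {S : Finset G} (hS : S.Nonempty) (hK : ((S + S).card : ℝ) ≤ K * S.card) :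
    ∃ (p : ℕ) (φ : G → ZMod p), p.Prime ∧
      (p : ℝ) ≤ (2 * K) ^ (50000 * n) * S.card * Real.log (2 * S.card) ∧ IsoN n S φ := by
  classical
  have hK1 : 1 ≤ K := one_le_K hS hK
  have hSpos : 0 < S.card := hS.card_pos
  have hSR : (1 : ℝ) ≤ S.card := by exact_mod_cast hSpos
  have hnR : (2 : ℝ) ≤ n := by exact_mod_cast hn
  obtain ⟨θ, hθ, hb⟩ := compressGN htf hn hS hK
  have hc' : (S.image θ).card = S.card := hθ.card_image hn
  have hS' : (S.image θ).Nonempty := hS.image θ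
  have hK' : ((S.image θ + S.image θ).card : ℝ) ≤ K * (S.image θ).card := by
    rw [hc']
    refine le_trans ?_ hK
    exact_mod_cast hθ.card_sum hn
  set A : ℝ := 100000000000 * n * (2 * K) ^ (30000 : ℝ) with hA
  set J : ℕ := ⌈lenN n K⌉₊ with hJ
  set k : ℕ := Nat.log 2 J + 2 with hk
  obtain ⟨hA0, hJ1, hk1, hlog, hkA⟩ := params hn hK1 hA hJ hk
  have hJR : (1 : ℝ) ≤ J := by exact_mod_cast hJ1
  have hSX : ∀ x ∈ S.image θ, 0 ≤ x ∧ x ≤ (J * (S.image θ).card : ℕ) := by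
    intro x hx
    obtain ⟨y, hy, rfl⟩ := mem_image.1 hx
    obtain ⟨h1, h2⟩ := hb y hy
    refine ⟨h1, ?_⟩
    rw [hc']
    have h3 : (θ y : ℝ) ≤ ((J * S.card : ℕ) : ℝ) := by
      push_cast
      refine h2.le.trans (mul_le_mul_of_nonneg_right ?_ (by linarith))
      exact Nat.le_ceil _
    exact_mod_cast h3
  have hnum := numeric hn hK1 hA
  have hKp : 1 ≤ K ^ (2 * n + 1) := one_le_pow₀ hK1
  have hA3 : 0 < A ^ 3 := by positivity
  have hA1 : 1 ≤ A := by linarith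
  set ℓ : ℝ := Real.log (2 * S.card) with hℓ
  have hℓ1 : 1 / 2 ≤ ℓ := by
    have h1 : Real.log 2 ≤ ℓ := Real.log_le_log (by norm_num) (by linarith)
    have := log_two_ge
    linarith
  have hlogS : Real.log S.card ≤ ℓ := Real.log_le_log (by linarith) (by linarith)
  obtain ⟨c0, hc0⟩ : ∃ c0 : ℕ, c0 = 20000000 := ⟨_, rfl⟩
  obtain ⟨M, hM⟩ : ∃ M : ℕ, M = ⌈20 * A * ℓ * K ^ (2 * n + 1) * S.card⌉₊ + c0 := ⟨_, rfl⟩
  have hMle : 20000000 ≤ M := by
    rw [hM, hc0]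
    exact Nat.le_add_left _ _
  have hc0R : (c0 : ℝ) = 20000000 := by
    rw [hc0]
    norm_num
  have hkS : Real.log (n * (J * S.card) : ℕ) ≤ 5 * A * ℓ := by
    push_cast
    rw [← mul_assoc, Real.log_mul (by positivity) (by positivity)]
    nlinarith
  obtain ⟨m, hm0, hm1, hm2⟩ := small hS' hK' (n := n) (X := J * (S.image θ).card) hSX
    (Nat.mul_pos (by omega) (Nat.mul_pos hJ1 (by rw [hc']; exact hSpos))) (M := M)
    hMle (by
      rw [hc']
      have h1 : K ^ (2 * n) ≤ K ^ (2 * n + 1) := pow_le_pow_right₀ hK1 (by omega)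
      have h2 : K ^ (2 * n) * (S.card : ℝ) * Real.log (n * (J * S.card) : ℕ) ≤
          K ^ (2 * n + 1) * S.card * (5 * A * ℓ) := by
        apply mul_le_mul _ hkS _ (by positivity)
        · exact mul_le_mul_of_nonneg_right h1 (by linarith)
        · apply Real.log_nonneg
          have : 1 ≤ n * (J * S.card) := Nat.mul_pos (by omega) (Nat.mul_pos hJ1 hSpos)
          exact_mod_cast this
      have h3 := Nat.le_ceil (20 * A * ℓ * K ^ (2 * n + 1) * S.card)
      rw [hM]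
      push_cast at h2 ⊢
      rw [hc0R]
      linarith)
  refine ⟨m, fun x => ((θ x : ℤ) : ZMod m), hm0, ?_, hθ.comp (isoN_cast hm2)⟩
  have h1 : (m : ℝ) ≤ M := by exact_mod_cast hm1
  have hfin : (m : ℝ) ≤ 400 * A ^ 3 * K ^ (2 * n + 1) * S.card * ℓ := by
    refine h1.trans ?_
    have h2 := (Nat.ceil_lt_add_one (a := 20 * A * ℓ * K ^ (2 * n + 1) * S.card) (by positivity)).le
    rw [hM]
    push_cast
    rw [hc0R]
    have hA13 : A ≤ A ^ 3 := by nlinarith [sq_nonneg A]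
    have h4 : A ^ 3 ≤ A ^ 3 * K ^ (2 * n + 1) := le_mul_of_one_le_right hA3.le hKp
    have h5 : A ^ 3 * K ^ (2 * n + 1) ≤ A ^ 3 * K ^ (2 * n + 1) * S.card :=
      le_mul_of_one_le_right (by positivity) hSR
    have h6 : 20 * A * ℓ * K ^ (2 * n + 1) * S.card ≤ 20 * A ^ 3 * ℓ * K ^ (2 * n + 1) * S.card := by
      gcongr
    have h7 : A ^ 3 * K ^ (2 * n + 1) * S.card ≤ 2 * (A ^ 3 * K ^ (2 * n + 1) * S.card * ℓ) := by
      have : 0 ≤ A ^ 3 * K ^ (2 * n + 1) * S.card := by positivity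
      nlinarith
    linarith
  refine hfin.trans ?_
  have : 0 ≤ (S.card : ℝ) * ℓ := by positivity
  calc 400 * A ^ 3 * K ^ (2 * n + 1) * S.card * ℓ = 400 * A ^ 3 * K ^ (2 * n + 1) * (S.card * ℓ) := by
        ring
    _ ≤ (2 * K) ^ (50000 * n) * (S.card * ℓ) := mul_le_mul_of_nonneg_right hnum this
    _ = (2 * K) ^ (50000 * n) * S.card * ℓ := by ring

end Pool.Agent.H602.MD
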