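import Pool.Agent.H602.MD.Model

/-!
# The number of isomorphism classes of sets of small doubling
-/

set_option autoImplicit false

open Finset
open scoped Pointwise

namespace Pool.Agent.H602.MD

universe u

open Classical in
/-- the subsets with `N` elements of `ZMod m` -/
noncomputable def subsets (N m : ℕ) : Finset (Finset (ZMod m)) :=
  if h : m = 0 then ∅ else
    haveI : NeZero m := ⟨h⟩
    powersetCard N univ

theorem subsets_card (N m : ℕ) : (subsets N m).card ≤ m.choose N := by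
  classical
  unfold subsets
  split_ifs with h
  · simp
  · have : NeZero m := ⟨h⟩
    rw [card_powersetCard, card_univ, ZMod.card]

theorem mem_subsets {N m : ℕ} (hm : 0 < m) {B : Finset (ZMod m)} (hB : B.card = N) :
    B ∈ subsets N m := by
  classical
  unfold subsets
  rw [dif_neg hm.ne']
  have : NeZero m := ⟨hm.ne'⟩
  rw [mem_powersetCard]
  exact ⟨subset_univ _, hB⟩

theorem upper (n : ℕ) (hn : 2 ≤ n) (K : ℝ) (hK : 1 ≤ K) (N : ℕ) (hN : 1 ≤ N) :
    ∃ F : Finset (Σ m : ℕ, Finset (ZMod m)), (F.card : ℝ) ≤ (2 * K) ^ (100002 * n * N) ∧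
      ∀ (G : Type u) [AddCommGroup G] [DecidableEq G],
        (∀ (j : ℕ) (x : G), j ≠ 0 → j • x = 0 → x = 0) → ∀ A : Finset G, A.card = N →
        ((A + A).card : ℝ) ≤ K * A.card →
        ∃ q ∈ F, ∃ φ : G → ZMod q.1, IsAddFreimanIso n (A : Set G) (q.2 : Set (ZMod q.1)) φ := by
  classical
  set X : ℝ := (2 * K) ^ (50000 * n) with hX
  set M : ℕ := ⌊X * N⌋₊ with hM
  have h2K : 2 ≤ 2 * K := by linarith
  have hX1 : 1 ≤ X := one_le_pow₀ (by linarith)
  have hNR : (1 : ℝ) ≤ N := by exact_mod_cast hN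
  have hMX : (M : ℝ) ≤ X * N := Nat.floor_le (by positivity)
  refine ⟨(Icc 1 M).sigma (subsets N), ?_, ?_⟩
  · rw [card_sigma]
    have h1 : ∑ m ∈ Icc 1 M, (subsets N m).card ≤ ∑ _m ∈ Icc 1 M, M.choose N := by
      refine sum_le_sum fun m hm => (subsets_card N m).trans ?_
      exact Nat.choose_le_choose N (mem_Icc.1 hm).2
    rw [sum_const, Nat.card_Icc, Nat.add_sub_cancel, smul_eq_mul] at h1
    have h2 : ((∑ m ∈ Icc 1 M, (subsets N m).card : ℕ) : ℝ) ≤ M * (M.choose N : ℝ) := by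
      exact_mod_cast h1
    refine h2.trans ?_
    have h3 : (M.choose N : ℝ) ≤ (M : ℝ) ^ N / N.factorial := Nat.choose_le_pow_div N M
    have h4 : (M : ℝ) ^ N ≤ (X * N) ^ N := pow_le_pow_left₀ (Nat.cast_nonneg _) hMX N
    have h5 : (N : ℝ) ^ N / N.factorial ≤ Real.exp N :=
      Real.pow_div_factorial_le_exp _ (Nat.cast_nonneg _) N
    have h6 : Real.exp N ≤ 4 ^ N := by
      have h7 : Real.exp 1 ≤ 4 := by
        have := Real.exp_one_lt_d9
        linarith
      calc Real.exp N = Real.exp 1 ^ N := by rw [← Real.exp_nat_mul, mul_one]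
        _ ≤ 4 ^ N := pow_le_pow_left₀ (Real.exp_pos 1).le h7 N
    have h7 : (M.choose N : ℝ) ≤ X ^ N * 4 ^ N := by
      calc (M.choose N : ℝ) ≤ (M : ℝ) ^ N / N.factorial := h3
        _ ≤ (X * N) ^ N / N.factorial := by gcongr
        _ = X ^ N * ((N : ℝ) ^ N / N.factorial) := by rw [mul_pow]; ring
        _ ≤ X ^ N * 4 ^ N := by
            apply mul_le_mul_of_nonneg_left (h5.trans h6) (by positivity)
    have h8 : (N : ℝ) ≤ 2 ^ N := by exact_mod_cast Nat.lt_two_pow_self.le
    calc (M : ℝ) * (M.choose N : ℝ) ≤ (X * N) * (X ^ N * 4 ^ N) := by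
          apply mul_le_mul hMX h7 (Nat.cast_nonneg _) (by positivity)
      _ ≤ (X * 2 ^ N) * (X ^ N * 4 ^ N) := by gcongr
      _ = X ^ (N + 1) * 2 ^ (3 * N) := by
          have e4 : (4 : ℝ) ^ N = 2 ^ (2 * N) := by
            rw [pow_mul]
            norm_num
          rw [pow_succ, e4, show 3 * N = N + 2 * N by ring, pow_add]
          ring
      _ ≤ X ^ (N + 1) * (2 * K) ^ (3 * N) := by
          apply mul_le_mul_of_nonneg_left _ (by positivity)
          exact pow_le_pow_left₀ (by norm_num) h2K _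
      _ = (2 * K) ^ (50000 * n * (N + 1) + 3 * N) := by rw [hX, ← pow_mul, ← pow_add]
      _ ≤ (2 * K) ^ (100002 * n * N) := by
          apply pow_le_pow_right₀ (by linarith)
          have e1 : 50000 * n * (N + 1) ≤ 50000 * n * (2 * N) := Nat.mul_le_mul_left _ (by omega)
          have e2 : 2 * N ≤ n * N := Nat.mul_le_mul_right N hn
          calc 50000 * n * (N + 1) + 3 * N ≤ 50000 * n * (2 * N) + 3 * N := Nat.add_le_add_right e1 _
            _ = 100000 * (n * N) + 3 * N := by ring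
            _ ≤ 100000 * (n * N) + 2 * (n * N) := by omega
            _ = 100002 * n * N := by ring
  · intro G _ _ htf A hAN hAK
    have hA : A.Nonempty := by
      rw [← card_pos, hAN]
      omega
    obtain ⟨m, φ, hm0, hm1, hφ⟩ := model htf hn hA hAK
    refine ⟨⟨m, A.image φ⟩, ?_, φ, hφ.freiman hn⟩
    rw [mem_sigma, mem_Icc]
    refine ⟨⟨hm0, ?_⟩, mem_subsets hm0 (by rw [hφ.card_image hn, hAN])⟩
    rw [hM]
    apply Nat.le_floor
    rw [hAN] at hm1
    exact hm1

/-- choosing one element of each of `k` blocks -/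
theorem pow_le_choose' (b k : ℕ) : b ^ k ≤ (k * b).choose k := by
  induction k with
  | zero => simp
  | succ k ih =>
    have h1 := Nat.add_choose_eq (k * b) b (k + 1)
    have h2 : (k * b).choose k * b.choose 1 ≤
        ∑ ij ∈ antidiagonal (k + 1), (k * b).choose ij.1 * b.choose ij.2 :=
      single_le_sum (f := fun ij : ℕ × ℕ => (k * b).choose ij.1 * b.choose ij.2)
        (a := (k, 1)) (fun _ _ => Nat.zero_le _) (mem_antidiagonal.2 rfl)
    rw [← h1, Nat.choose_one_right] at h2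
    rw [show (k + 1) * b = k * b + b by ring, pow_succ]
    exact (Nat.mul_le_mul_right b ih).trans h2

/-- the basis -/
noncomputable def base (s : ℕ) : Finset ℤ := Icc 0 (s : ℤ) ∪ (Icc 2 (s : ℤ)).image (fun i => i * s)

theorem base_sub {s : ℕ} : base s ⊆ Icc 0 ((s : ℤ) ^ 2) := by
  intro x hx
  rcases mem_union.1 hx with h | h
  · rw [mem_Icc] at h ⊢
    refine ⟨h.1, h.2.trans ?_⟩
    have : s ≤ s ^ 2 := by nlinarith
    exact_mod_cast this
  · obtain ⟨i, hi, rfl⟩ := mem_image.1 h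
    rw [mem_Icc] at hi ⊢
    constructor <;> nlinarith

theorem base_card_le {s : ℕ} (hs : 1 ≤ s) : (base s).card ≤ 2 * s := by
  unfold base
  refine (card_union_le _ _).trans ?_
  have h1 : ((Icc 2 (s : ℤ)).image (fun i => i * (s : ℤ))).card ≤ (Icc 2 (s : ℤ)).card :=
    card_image_le
  rw [Int.card_Icc] at h1
  rw [Int.card_Icc]
  omega

theorem mem_base_mul {s i : ℕ} (hi : i ≤ s) : ((i : ℤ) * s) ∈ base s := by
  unfold base
  rcases Nat.lt_or_ge i 2 with h | h
  · apply mem_union_left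
    rw [mem_Icc]
    interval_cases i <;> simp
  · apply mem_union_right
    rw [mem_image]
    exact ⟨i, mem_Icc.2 ⟨by exact_mod_cast h, by exact_mod_cast hi⟩, rfl⟩

theorem mem_base_le {s j : ℕ} (hj : j ≤ s) : (j : ℤ) ∈ base s := by
  unfold base
  apply mem_union_left
  rw [mem_Icc]
  constructor <;> omega

/-- isomorphisms between sets which contain the basis are trivial -/
theorem rigid {s : ℕ} (hs : 1 ≤ s) {A A' : Finset ℤ} (hb : base s ⊆ A)
    (hA : A ⊆ Icc 0 ((s : ℤ) ^ 2)) (hA' : A' ⊆ Icc 0 ((s : ℤ) ^ 2)) (hcard : A.card = A'.card)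
    {H : Type*} [AddCommGroup H] {B : Set H} {f f' : ℤ → H} (hf : IsAddFreimanIso 2 (A : Set ℤ) B f)
    (hf' : IsAddFreimanIso 2 (A' : Set ℤ) B f') :
    A' = A ∨ A' = A.image (fun x => (s : ℤ) ^ 2 - x) := by
  classical
  have hch : ∀ x : ℤ, ∃ y : ℤ, x ∈ A → y ∈ A' ∧ f' y = f x := by
    intro x
    by_cases hx : x ∈ A
    · have h1 : f x ∈ B := hf.bijOn.mapsTo (mem_coe.2 hx)
      obtain ⟨y, hy, hyx⟩ := hf'.bijOn.surjOn h1
      exact ⟨y, fun _ => ⟨mem_coe.1 hy, hyx⟩⟩
    · exact ⟨0, fun h => absurd h hx⟩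
  choose g hg using hch
  have hsum : ∀ a ∈ A, ∀ b ∈ A, ∀ c ∈ A, ∀ d ∈ A, a + b = c + d → g a + g b = g c + g d := by
    intro a ha b hb' c hc d hd h
    have h1 := (hf.add_eq_add (mem_coe.2 ha) (mem_coe.2 hb') (mem_coe.2 hc) (mem_coe.2 hd)).2 h
    rw [← (hg a ha).2, ← (hg b hb').2, ← (hg c hc).2, ← (hg d hd).2] at h1
    exact (hf'.add_eq_add (mem_coe.2 (hg a ha).1) (mem_coe.2 (hg b hb').1) (mem_coe.2 (hg c hc).1)
      (mem_coe.2 (hg d hd).1)).1 h1
  have hinj : ∀ a ∈ A, ∀ b ∈ A, g a = g b → a = b := by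
    intro a ha b hb' h
    apply hf.bijOn.injOn (mem_coe.2 ha) (mem_coe.2 hb')
    rw [← (hg a ha).2, ← (hg b hb').2, h]
  have h0 : (0 : ℤ) ∈ A := hb (by simpa using mem_base_le (s := s) (j := 0) (by omega))
  have h1 : (1 : ℤ) ∈ A := hb (by simpa using mem_base_le (s := s) (j := 1) hs)
  set d := g 1 - g 0 with hd
  have hsmall : ∀ j : ℕ, j ≤ s → g (j : ℤ) = g 0 + j * d := by
    intro j
    induction j with
    | zero =>
      intro _
      simp
    | succ j ih =>
      intro hj
      have e := hsum _ (hb (mem_base_le hj)) _ h0 _ (hb (mem_base_le (s := s) (j := j) (by omega))) _ h1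
        (by push_cast; ring)
      rw [ih (by omega)] at e
      push_cast at e ⊢
      rw [hd] at e ⊢
      linear_combination e
  have hmul : ∀ i : ℕ, i ≤ s → g ((i : ℤ) * s) = g 0 + (i * s) * d := by
    intro i
    induction i with
    | zero =>
      intro _
      simp
    | succ i ih =>
      intro hi
      have e := hsum _ (hb (mem_base_mul hi)) _ h0 _ (hb (mem_base_mul (s := s) (i := i) (by omega))) _
        (hb (mem_base_le (s := s) le_rfl)) (by push_cast; ring)
      rw [ih (by omega), hsmall s le_rfl] at e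
      push_cast at e ⊢
      linear_combination e
  have hall : ∀ x ∈ A, g x = g 0 + x * d := by
    intro x hx
    have hx' := mem_Icc.1 (hA hx)
    obtain ⟨n, rfl⟩ := Int.eq_ofNat_of_zero_le hx'.1
    rcases eq_or_lt_of_le hx'.2 with he | hlt
    · rw [he]
      have e := hmul s le_rfl
      rw [show (s : ℤ) * s = (s : ℤ) ^ 2 by ring] at e
      exact e
    · have hlt' : n < s * s := by
        have : (n : ℤ) < ((s * s : ℕ) : ℤ) := by
          push_cast
          rw [← pow_two]
          exact hlt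
        exact_mod_cast this
      have hq : n / s < s := Nat.div_lt_of_lt_mul hlt'
      have hr : n % s < s := Nat.mod_lt _ (by omega)
      have hdm := Nat.div_add_mod n s
      have e := hsum _ hx _ h0 _ (hb (mem_base_mul (s := s) (i := n / s) hq.le)) _
        (hb (mem_base_le (s := s) (j := n % s) hr.le)) (by
          rw [add_zero]
          have : ((s * (n / s) + n % s : ℕ) : ℤ) = n := by rw [hdm]
          push_cast at this ⊢
          linarith)
      rw [hmul _ hq.le, hsmall _ hr.le] at e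
      have e2 : ((s : ℤ) * ((n / s : ℕ) : ℤ) + ((n % s : ℕ) : ℤ)) = n := by
        rw [← Nat.cast_mul, ← Nat.cast_add, hdm]
      linear_combination e + d * e2
  have hs2 : ((s : ℤ) ^ 2) ∈ A := by
    have := hb (mem_base_mul (s := s) (i := s) le_rfl)
    rwa [show (s : ℤ) * s = (s : ℤ) ^ 2 by ring] at this
  have hspos : (0 : ℤ) < (s : ℤ) ^ 2 := by
    have : (0 : ℤ) < s := by exact_mod_cast hs
    positivity
  have hg0 := mem_Icc.1 (hA' (hg 0 h0).1)
  have hgs := mem_Icc.1 (hA' (hg _ hs2).1)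
  rw [hall _ hs2] at hgs
  have hd0 : d ≠ 0 := by
    intro h
    have : g 1 = g 0 := by rw [hall 1 h1, h]; ring
    exact one_ne_zero (hinj 1 h1 0 h0 this)
  have hd1 : d = 1 ∨ d = -1 := by
    have h2 : d ≤ 1 := by
      by_contra hcon
      push Not at hcon
      nlinarith
    have h3 : -1 ≤ d := by
      by_contra hcon
      push Not at hcon
      nlinarith
    omega
  have himg : A.image g = A' := by
    apply eq_of_subset_of_card_le
    · intro y hy
      obtain ⟨x, hx, rfl⟩ := mem_image.1 hy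
      exact (hg x hx).1
    · rw [← hcard, card_image_of_injOn (fun a ha b hb' h => hinj a ha b hb' h)]
  rcases hd1 with h | h
  · left
    rw [h, mul_one] at hgs
    have hg00 : g 0 = 0 := by linarith
    rw [← himg]
    have : A.image g = A.image id := image_congr fun x hx => by
      rw [hall x hx, hg00, h]
      simp
    rw [this, image_id]
  · right
    rw [h] at hgs
    have hg00 : g 0 = (s : ℤ) ^ 2 := by linarith
    rw [← himg]
    exact image_congr fun x hx => by
      rw [hall x hx, hg00, h]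
      ring

/-- many classes -/
theorem lower_count {s N k : ℕ} (hs : 1 ≤ s) (hk : (base s).card + k = N)
    {ι : Type*} [Fintype ι] {H : ι → Type*} [∀ i, AddCommGroup (H i)] (B : ∀ i, Set (H i))
    (hB : ∀ A : Finset ℤ, A.card = N → (A + A).card ≤ 2 * s ^ 2 + 1 →
      ∃ (i : ι) (φ : ℤ → H i), IsAddFreimanIso 2 (A : Set ℤ) (B i) φ) :
    (((Icc 0 ((s : ℤ) ^ 2)) \ base s).card).choose k ≤ 2 * Fintype.card ι := by
  classical
  set U := (Icc 0 ((s : ℤ) ^ 2)) \ base s with hU
  have hdisj : ∀ V ∈ powersetCard k U, Disjoint (base s) V := by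
    intro V hV
    rw [mem_powersetCard] at hV
    exact disjoint_of_subset_right hV.1 disjoint_sdiff
  have hsub : ∀ V ∈ powersetCard k U, base s ∪ V ⊆ Icc 0 ((s : ℤ) ^ 2) := by
    intro V hV
    rw [mem_powersetCard] at hV
    exact union_subset base_sub (hV.1.trans sdiff_subset)
  have hcard : ∀ V ∈ powersetCard k U, (base s ∪ V).card = N := by
    intro V hV
    rw [card_union_of_disjoint (hdisj V hV), (mem_powersetCard.1 hV).2, hk]
  have hdoub : ∀ V ∈ powersetCard k U, ((base s ∪ V) + (base s ∪ V)).card ≤ 2 * s ^ 2 + 1 := by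
    intro V hV
    have h2 : (base s ∪ V) + (base s ∪ V) ⊆ Icc 0 (2 * (s : ℤ) ^ 2) := by
      intro z hz
      obtain ⟨x, hx, y, hy, rfl⟩ := mem_add.1 hz
      have h3 := mem_Icc.1 (hsub V hV hx)
      have h4 := mem_Icc.1 (hsub V hV hy)
      rw [mem_Icc]
      constructor <;> linarith
    refine (card_le_card h2).trans ?_
    rw [Int.card_Icc]
    have e1 : (2 * (s : ℤ) ^ 2 + 1 - 0) = ((2 * s ^ 2 + 1 : ℕ) : ℤ) := by push_cast; ring
    rw [e1, Int.toNat_natCast]
  rw [← card_powersetCard]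
  by_cases hne : (powersetCard k U).Nonempty
  swap
  · rw [not_nonempty_iff_eq_empty.1 hne]
    simp
  obtain ⟨V₀, hV₀⟩ := hne
  obtain ⟨i₀, -, -⟩ := hB _ (hcard V₀ hV₀) (hdoub V₀ hV₀)
  have hex : ∀ V : Finset ℤ, ∃ i : ι, V ∈ powersetCard k U →
      ∃ φ : ℤ → H i, IsAddFreimanIso 2 ((base s ∪ V : Finset ℤ) : Set ℤ) (B i) φ := by
    intro V
    by_cases hV : V ∈ powersetCard k U
    · obtain ⟨i, φ, h⟩ := hB _ (hcard V hV) (hdoub V hV)
      exact ⟨i, fun _ => ⟨φ, h⟩⟩
    · exact ⟨i₀, fun h => absurd h hV⟩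
  choose F hF using hex
  have hfib : ∀ a ∈ (powersetCard k U).image F, ((powersetCard k U).filter (fun V => F V = a)).card ≤ 2 := by
    intro a ha
    obtain ⟨V₁, hV₁, rfl⟩ := mem_image.1 ha
    have hsubset : (powersetCard k U).filter (fun V => F V = F V₁) ⊆
        {V₁, ((base s ∪ V₁).image (fun x => (s : ℤ) ^ 2 - x)) \ base s} := by
      intro V hV
      rw [mem_filter] at hV
      obtain ⟨hV, hVe⟩ := hV
      obtain ⟨f, hf⟩ := hF V₁ hV₁
      have hV' := hF V hV
      rw [hVe] at hV'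
      obtain ⟨f', hf'⟩ := hV'
      rw [mem_insert, mem_singleton]
      have hVb : (base s ∪ V) \ base s = V := by
        rw [union_sdiff_left]
        exact sdiff_eq_self_of_disjoint (hdisj V hV).symm
      have hVb₁ : (base s ∪ V₁) \ base s = V₁ := by
        rw [union_sdiff_left]
        exact sdiff_eq_self_of_disjoint (hdisj V₁ hV₁).symm
      have hc : (base s ∪ V₁).card = (base s ∪ V).card := by rw [hcard V₁ hV₁, hcard V hV]
      rcases rigid hs subset_union_left (hsub V₁ hV₁) (hsub V hV) hc hf hf' with h | h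
      · left
        rw [← hVb, h, hVb₁]
      · right
        rw [← hVb, h]
    refine (card_le_card hsubset).trans ?_
    exact card_le_two
  refine (card_le_mul_card_image _ 2 hfib).trans ?_
  exact Nat.mul_le_mul_left 2 (card_le_univ _)

/-- the lower bound -/
theorem lower_classes {K : ℝ} {N : ℕ} (hK : 64 ≤ K) (hKN : 8 * K ≤ N)
    {ι : Type*} [Fintype ι] {H : ι → Type*} [∀ i, AddCommGroup (H i)] (B : ∀ i, Set (H i))
    (hB : ∀ A : Finset ℤ, A.card = N → ((A + A).card : ℝ) ≤ K * A.card →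
      ∃ (i : ι) (φ : ℤ → H i), IsAddFreimanIso 2 (A : Set ℤ) (B i) φ) :
    (K / 4) ^ N ≤ 4 * (Fintype.card ι : ℝ) ^ 2 := by
  have hN0 : (512 : ℝ) ≤ N := by linarith
  have hNpos : (0 : ℝ) < N := by linarith
  set x : ℝ := K * N / 2 with hx
  have hx1 : 16384 ≤ x := by
    rw [hx]
    nlinarith
  set S := Nat.sqrt ⌊x⌋₊ with hS
  have hS1 : (S : ℝ) ^ 2 ≤ x := by
    have h1 : S * S ≤ ⌊x⌋₊ := Nat.sqrt_le ⌊x⌋₊
    have h2 : ((S * S : ℕ) : ℝ) ≤ ⌊x⌋₊ := by exact_mod_cast h1
    have h3 := Nat.floor_le (a := x) (by linarith)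
    push_cast at h2
    nlinarith
  have hS2 : x - 1 < ((S : ℝ) + 1) ^ 2 := by
    have h1 : ⌊x⌋₊ < (S + 1) * (S + 1) := Nat.lt_succ_sqrt ⌊x⌋₊
    have h2 : (⌊x⌋₊ : ℝ) < (((S + 1) * (S + 1) : ℕ) : ℝ) := by exact_mod_cast h1
    have h3 := Nat.sub_one_lt_floor x
    push_cast at h2
    nlinarith
  have hSnn : (0 : ℝ) ≤ S := Nat.cast_nonneg _
  have hS126 : (126 : ℝ) ≤ S := by
    by_contra hcon
    push Not at hcon
    have : ((S : ℝ) + 1) ^ 2 < 127 ^ 2 := by nlinarith
    linarith
  have hS126' : 126 ≤ S := by exact_mod_cast hS126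
  have hSx : 128 * (S : ℝ) ≤ x := by
    by_contra hcon
    push Not at hcon
    rcases le_or_gt (S : ℝ) 128 with h | h
    · linarith
    · nlinarith
  have hSN : 4 * (S : ℝ) ≤ N := by
    by_contra hcon
    push Not at hcon
    have h1 : (N : ℝ) ^ 2 < 16 * (S : ℝ) ^ 2 := by nlinarith
    have h2 : 16 * x ≤ (N : ℝ) ^ 2 := by
      rw [hx]
      nlinarith
    linarith
  obtain ⟨s, hs⟩ : ∃ s : ℕ, S = s + 1 := ⟨S - 1, by omega⟩
  have hsR : (S : ℝ) = s + 1 := by exact_mod_cast hs
  have hs1 : 1 ≤ s := by omega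
  have hbc := base_card_le hs1
  have hbN : 2 * (base s).card ≤ N := by
    have : 4 * S ≤ N := by exact_mod_cast hSN
    omega
  set k := N - (base s).card with hk
  have hcount := lower_count hs1 (show (base s).card + k = N by omega) B (fun A hA hAA => by
    apply hB A hA
    have h1 : ((A + A).card : ℝ) ≤ 2 * (s : ℝ) ^ 2 + 1 := by exact_mod_cast hAA
    refine h1.trans ?_
    rw [hA, show K * (N : ℝ) = 2 * x by rw [hx]; ring]
    have h2 : (s : ℝ) = S - 1 := by linarith
    rw [h2]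
    nlinarith)
  have hU : ((s : ℝ) - 1) ^ 2 ≤ (((Icc 0 ((s : ℤ) ^ 2)) \ base s).card : ℝ) := by
    have h1 : ((Icc 0 ((s : ℤ) ^ 2)) \ base s).card = s ^ 2 + 1 - (base s).card := by
      rw [card_sdiff_of_subset base_sub, Int.card_Icc]
      congr 1
    rw [h1]
    have h2 : (base s).card ≤ s ^ 2 + 1 := by nlinarith
    rw [Nat.cast_sub h2]
    have h3 : ((base s).card : ℝ) ≤ 2 * s := by exact_mod_cast hbc
    push_cast
    nlinarith
  set u := ((Icc 0 ((s : ℤ) ^ 2)) \ base s).card with hu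
  set b := u / N with hb
  have hbR : K / 4 ≤ b := by
    have h1 : (u : ℝ) < N * (b + 1) := by
      have : u < N * (u / N + 1) := Nat.lt_mul_div_succ u (by exact_mod_cast hNpos)
      exact_mod_cast this
    have h2 : x - 6 * S ≤ ((s : ℝ) - 1) ^ 2 := by
      have : (s : ℝ) - 1 = S - 2 := by linarith
      rw [this]
      nlinarith
    have h3 : (15 / 16) * x < N * (b + 1) := by
      have : 6 * (S : ℝ) ≤ (6 / 128) * x := by linarith
      linarith
    have h4 : (15 / 32) * K < b + 1 := by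
      have : N * ((15 / 32) * K) < N * ((b : ℝ) + 1) := by
        rw [hx] at h3
        linarith
      exact lt_of_mul_lt_mul_left this hNpos.le
    linarith
  have hb1 : 1 ≤ (b : ℝ) := by linarith
  have hkb : k * b ≤ u := by
    calc k * b ≤ N * b := Nat.mul_le_mul_right b (by omega)
      _ ≤ u := Nat.mul_div_le u N
  have h1 : b ^ k ≤ 2 * Fintype.card ι :=
    (pow_le_choose' b k).trans ((Nat.choose_le_choose k hkb).trans hcount)
  have h2 : ((b : ℝ)) ^ k ≤ 2 * (Fintype.card ι : ℝ) := by exact_mod_cast h1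
  have h3 : (b : ℝ) ^ N ≤ (b : ℝ) ^ (k + k) := pow_le_pow_right₀ hb1 (by omega)
  calc (K / 4) ^ N ≤ (b : ℝ) ^ N := pow_le_pow_left₀ (by linarith) hbR N
    _ ≤ (b : ℝ) ^ (k + k) := h3
    _ = ((b : ℝ) ^ k) ^ 2 := by rw [pow_add]; ring
    _ ≤ (2 * (Fintype.card ι : ℝ)) ^ 2 := pow_le_pow_left₀ (by positivity) h2 2
    _ = 4 * (Fintype.card ι : ℝ) ^ 2 := by ring

end Pool.Agent.H602.MD
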