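import Pool.Agent.H602.MD.Iso

/-!
# Sets of small doubling in torsion-free groups: short models in the integers of order `n`
-/

set_option autoImplicit false

open Finset
open scoped Pointwise

namespace Pool.Agent.H602.MD

open Pool.Agent.H602.KS

/-- the length of the interval, divided by the number of elements -/
noncomputable def lenN (n : ℕ) (K : ℝ) : ℝ := Real.exp (100000000000 * n * (2 * K) ^ (30000 : ℝ))

theorem boxesN_le {K : ℝ} (hK : 1 ≤ K) {n : ℕ} (hn : 1 ≤ n) {r : ℕ} {L : Fin r → ℕ} {T : Finset ℤ}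
    {m : ℕ} (hr : (r : ℝ) ≤ 30000 * Real.log (2 * K))
    (hv : ((∏ i, (2 * L i + 1) : ℕ) : ℝ) ≤ vol K * m) (hT : (T.card : ℝ) ≤ (2 * K) ^ (30000 : ℝ)) :
    (((∏ i, 16 * n * r * (2 * L i + 1)) * (32 * n + 1) ^ T.card : ℕ) : ℝ) ≤ lenN n K * m := by
  have h2K : 2 ≤ 2 * K := by linarith
  have hn1 : (1 : ℝ) ≤ n := by exact_mod_cast hn
  have hlog0 : 0 ≤ Real.log (2 * K) := Real.log_nonneg (by linarith)
  have hlog : Real.log (2 * K) ≤ 2 * K := (Real.log_le_sub_one_of_pos (by linarith)).trans (by linarith)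
  set W : ℝ := (2 * K) ^ (30000 : ℝ) with hW
  have hW0 : 0 ≤ W := by positivity
  have hsq : Real.log (2 * K) ^ 2 ≤ W := by
    have h1 : Real.log (2 * K) ^ 2 ≤ (2 * K) ^ 2 := pow_le_pow_left₀ hlog0 hlog 2
    refine h1.trans ?_
    rw [hW, ← Real.rpow_natCast]
    exact Real.rpow_le_rpow_of_exponent_le (by linarith) (by norm_num)
  have hprod : ((∏ i, 16 * n * r * (2 * L i + 1) : ℕ) : ℝ) =
      (16 * n * (r : ℝ)) ^ r * ((∏ i, (2 * L i + 1) : ℕ) : ℝ) := by
    rw [prod_mul_distrib, prod_const, card_univ, Fintype.card_fin]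
    push_cast
    ring
  have h1 : (16 * n * (r : ℝ)) ^ r ≤ Real.exp (14400000000 * n * W) := by
    have h2 : (16 * n * (r : ℝ)) ≤ Real.exp (16 * n * r) := by
      have := Real.add_one_le_exp (16 * n * (r : ℝ))
      linarith
    have h3 : (16 * n * (r : ℝ)) ^ r ≤ Real.exp (16 * n * r) ^ r :=
      pow_le_pow_left₀ (by positivity) h2 r
    refine h3.trans ?_
    rw [← Real.exp_nat_mul]
    apply Real.exp_le_exp.2
    have h5 : (r : ℝ) ^ 2 ≤ (30000 * Real.log (2 * K)) ^ 2 :=
      pow_le_pow_left₀ (Nat.cast_nonneg r) hr 2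
    calc (r : ℝ) * (16 * n * r) = 16 * n * (r : ℝ) ^ 2 := by ring
      _ ≤ 16 * n * (30000 * Real.log (2 * K)) ^ 2 := by
          exact mul_le_mul_of_nonneg_left h5 (by positivity)
      _ = 14400000000 * n * Real.log (2 * K) ^ 2 := by ring
      _ ≤ 14400000000 * n * W := mul_le_mul_of_nonneg_left hsq (by positivity)
  have h2 : ((32 * n + 1 : ℕ) : ℝ) ^ T.card ≤ Real.exp (32 * n * W) := by
    have h3 : ((32 * n + 1 : ℕ) : ℝ) ≤ Real.exp (32 * n) := by
      push_cast
      exact Real.add_one_le_exp (32 * (n : ℝ))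
    refine (pow_le_pow_left₀ (Nat.cast_nonneg _) h3 _).trans ?_
    rw [← Real.exp_nat_mul]
    apply Real.exp_le_exp.2
    calc (T.card : ℝ) * (32 * n) ≤ W * (32 * n) := mul_le_mul_of_nonneg_right hT (by positivity)
      _ = 32 * n * W := by ring
  have h3 : vol K ≤ Real.exp (4000000 * n * W) := by
    unfold vol
    apply Real.exp_le_exp.2
    calc 4000000 * Real.log (2 * K) ^ 2 ≤ 4000000 * W := by linarith
      _ = 4000000 * 1 * W := by ring
      _ ≤ 4000000 * n * W := by
          apply mul_le_mul_of_nonneg_right _ hW0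
          linarith
  have hm : (0 : ℝ) ≤ m := Nat.cast_nonneg m
  rw [Nat.cast_mul, hprod, Nat.cast_pow]
  have h4 : ((∏ i, (2 * L i + 1) : ℕ) : ℝ) ≤ Real.exp (4000000 * n * W) * m :=
    hv.trans (mul_le_mul_of_nonneg_right h3 hm)
  calc (16 * n * (r : ℝ)) ^ r * ((∏ i, (2 * L i + 1) : ℕ) : ℝ) * ((32 * n + 1 : ℕ) : ℝ) ^ T.card
      ≤ Real.exp (14400000000 * n * W) * (Real.exp (4000000 * n * W) * m) * Real.exp (32 * n * W) := by
        apply mul_le_mul (mul_le_mul h1 h4 (Nat.cast_nonneg _) (Real.exp_pos _).le) h2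
          (by positivity) (by positivity)
    _ = Real.exp (14400000000 * n * W + 4000000 * n * W + 32 * n * W) * m := by
        rw [Real.exp_add, Real.exp_add]
        ring
    _ ≤ lenN n K * m := by
        apply mul_le_mul_of_nonneg_right _ hm
        unfold lenN
        apply Real.exp_le_exp.2
        have : 0 ≤ (n : ℝ) * W := by positivity
        nlinarith

theorem one_le_K {G : Type*} [AddCommGroup G] [DecidableEq G] {K : ℝ} {S : Finset G}
    (hS : S.Nonempty) (hK : ((S + S).card : ℝ) ≤ K * S.card) : 1 ≤ K := by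
  have hSpos : (0 : ℝ) < S.card := by exact_mod_cast hS.card_pos
  have h1 : (S.card : ℝ) ≤ (S + S).card := by
    exact_mod_cast Finset.card_le_card_add_right hS
  by_contra hcon
  push Not at hcon
  nlinarith

/-- **A set of integers of small doubling is Freiman isomorphic, of order `n`, to a dense subset of an
interval.** -/
theorem compressN {K : ℝ} {n : ℕ} (hn : 2 ≤ n) {S : Finset ℤ} (hS : S.Nonempty)
    (hK : ((S + S).card : ℝ) ≤ K * S.card) :
    ∃ φ : ℤ → ℤ, IsoN n S φ ∧ ∀ a ∈ S, 0 ≤ φ a ∧ (φ a : ℝ) < lenN n K * S.card := by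
  classical
  have hSpos : (0 : ℝ) < S.card := by exact_mod_cast hS.card_pos
  have hK1 : 1 ≤ K := one_le_K hS hK
  have hex : ∃ l : ℕ, ∃ φ : ℤ → ℤ, IsoN n S φ ∧ ∀ a ∈ S, 0 ≤ φ a ∧ φ a ≤ l := by
    set Rg : ℕ := ∑ x ∈ S, x.natAbs with hRg
    have hid : IsoN n S (fun x : ℤ => x) := by
      intro s t _ _ _ _
      rw [Multiset.map_id', Multiset.map_id']
    refine ⟨2 * Rg, fun x => x + Rg, hid.add (Rg : ℤ), ?_⟩
    intro a ha
    have h1 : a.natAbs ≤ Rg := single_le_sum (f := fun x : ℤ => x.natAbs) (fun _ _ => Nat.zero_le _) ha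
    simp only
    push_cast
    omega
  obtain ⟨φ, hφ, hb⟩ := Nat.find_spec hex
  set l := Nat.find hex with hl
  refine ⟨φ, hφ, fun a ha => ⟨(hb a ha).1, ?_⟩⟩
  have hal : (φ a : ℝ) ≤ l := by exact_mod_cast (hb a ha).2
  refine lt_of_le_of_lt hal ?_
  have hlen : 0 < lenN n K * S.card := mul_pos (Real.exp_pos _) hSpos
  rcases Nat.eq_zero_or_pos l with h0 | h0
  · rw [h0]
    simpa using hlen
  have hS' : (S.image φ).Nonempty := hS.image φ
  have hc' : (S.image φ).card = S.card := hφ.card_image hn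
  have hK' : ((S.image φ + S.image φ).card : ℝ) ≤ K * (S.image φ).card := by
    rw [hc']
    refine le_trans ?_ hK
    exact_mod_cast hφ.card_sum hn
  obtain ⟨r, v, L, T, hr, hv, hT, hcov⟩ := cover hS' hK'
  rw [hc'] at hv
  have hbox := boxesN_le hK1 (n := n) (by omega) hr hv hT
  refine lt_of_lt_of_le ?_ hbox
  by_contra hcon
  push Not at hcon
  have hcon' : (∏ i, 16 * n * r * (2 * L i + 1)) * (32 * n + 1) ^ T.card ≤ l := by exact_mod_cast hcon
  have hnl : 0 < n * l := Nat.mul_pos (by omega) h0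
  obtain ⟨p, hp, hp1, hp2⟩ := Nat.exists_prime_lt_and_le_two_mul (2 * (n * l)) (by omega)
  have hlnl : l ≤ n * l := Nat.le_mul_of_pos_left l (by omega)
  obtain ⟨ψ, hψ, hψb⟩ := shrinkN (n := n) (by omega) hp (S := S.image φ) (l := l) (by
    intro x hx
    obtain ⟨y, hy, rfl⟩ := mem_image.1 hx
    exact hb y hy) (by omega) v L T hcov (by omega)
  have hnew : ∃ φ' : ℤ → ℤ, IsoN n S φ' ∧ ∀ a ∈ S, 0 ≤ φ' a ∧ φ' a ≤ ((l - 1 : ℕ) : ℤ) := by
    refine ⟨fun x => ψ (φ x) + ((l / 4 : ℕ) : ℤ), (hφ.comp hψ).add _, ?_⟩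
    · intro a ha
      have h1 := hψb (φ a) (mem_image_of_mem _ ha)
      have h3 : (n : ℤ) * (16 * |ψ (φ a)|) ≤ n * (4 * l) := by
        have h4 : (p : ℤ) ≤ 2 * (2 * (n * l)) := by exact_mod_cast hp2
        linarith
      have h5 : 16 * |ψ (φ a)| ≤ 4 * l := le_of_mul_le_mul_left h3 (by exact_mod_cast (by omega : 0 < n))
      have h2 := abs_le.1 (le_refl |ψ (φ a)|)
      simp only
      push_cast
      omega
  have := Nat.find_min' hex hnew
  omega

/-- sums of `n` elements -/
theorem sum_mem {G : Type*} [AddCommGroup G] [DecidableEq G] {S : Finset G} (s : Multiset G)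
    (hs : ∀ x ∈ s, x ∈ S) : s.sum ∈ s.card • S := by
  induction s using Multiset.induction_on with
  | empty => simp
  | cons a s ih =>
    have h1 := ih fun x hx => hs x (Multiset.mem_cons_of_mem hx)
    rw [Multiset.sum_cons, Multiset.card_cons, succ_nsmul', add_comm a, add_comm S]
    exact add_mem_add h1 (hs a (Multiset.mem_cons_self a s))

/-- **Sets of small doubling in torsion-free groups are isomorphic to dense subsets of intervals.** -/
theorem compressGN {G : Type*} [AddCommGroup G] [DecidableEq G]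
    (htf : ∀ (n : ℕ) (x : G), n ≠ 0 → n • x = 0 → x = 0) {K : ℝ} {n : ℕ} (hn : 2 ≤ n)
    {S : Finset G} (hS : S.Nonempty) (hK : ((S + S).card : ℝ) ≤ K * S.card) :
    ∃ φ : G → ℤ, IsoN n S φ ∧ ∀ a ∈ S, 0 ≤ φ a ∧ (φ a : ℝ) < lenN n K * S.card := by
  classical
  obtain ⟨θ, hadd, hinj⟩ := exists_hom htf (S ∪ n • S)
  have hcl : ∀ x ∈ S, x ∈ AddSubgroup.closure ((S ∪ n • S : Finset G) : Set G) := fun x hx =>
    AddSubgroup.subset_closure (mem_coe.2 (mem_union_left _ hx))
  have h0 : θ 0 = 0 := by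
    have := hadd 0 (AddSubgroup.zero_mem _) 0 (AddSubgroup.zero_mem _)
    rw [add_zero] at this
    omega
  have hsum : ∀ s : Multiset G, (∀ x ∈ s, x ∈ S) →
      s.sum ∈ AddSubgroup.closure ((S ∪ n • S : Finset G) : Set G) ∧ θ s.sum = (s.map θ).sum := by
    intro s
    induction s using Multiset.induction_on with
    | empty =>
      intro _
      exact ⟨AddSubgroup.zero_mem _, by simpa using h0⟩
    | cons a s ih =>
      intro hs
      obtain ⟨h1, h2⟩ := ih fun x hx => hs x (Multiset.mem_cons_of_mem hx)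
      have h3 := hcl a (hs a (Multiset.mem_cons_self a s))
      rw [Multiset.sum_cons, Multiset.map_cons, Multiset.sum_cons]
      exact ⟨AddSubgroup.add_mem _ h3 h1, by rw [hadd a h3 _ h1, h2]⟩
  have hθ : IsoN n S θ := by
    intro s t hs ht hsn htn
    rw [← (hsum s hs).2, ← (hsum t ht).2]
    constructor
    · intro h
      have h1 := sum_mem s hs
      have h2 := sum_mem t ht
      rw [hsn] at h1
      rw [htn] at h2
      exact hinj _ (mem_union_right _ h1) _ (mem_union_right _ h2) h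
    · intro h
      rw [h]
  have hc' : (S.image θ).card = S.card := hθ.card_image hn
  have hK' : ((S.image θ + S.image θ).card : ℝ) ≤ K * (S.image θ).card := by
    rw [hc']
    refine le_trans ?_ hK
    exact_mod_cast hθ.card_sum hn
  obtain ⟨φ, hφ, hb⟩ := compressN hn (hS.image θ) hK'
  refine ⟨fun x => φ (θ x), hθ.comp hφ, fun a ha => ?_⟩
  have := hb (θ a) (mem_image_of_mem _ ha)
  rw [hc'] at this
  exact this

end Pool.Agent.H602.MD
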