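import Mathlib

/-!
# Moduli which divide a difference
-/

set_option autoImplicit false

open Finset
open scoped Pointwise

namespace Pool.Agent.H602.MD

/-- the number of residues modulo `N` -/
def rc (S : Finset ℤ) (N : ℕ) : ℕ := (S.image (fun x : ℤ => x % (N : ℤ))).card

theorem rc_pos {S : Finset ℤ} (hS : S.Nonempty) (N : ℕ) : 0 < rc S N :=
  card_pos.2 (hS.image _)

theorem rc_mul {S : Finset ℤ} {a b : ℕ} (ha : 0 < a) (hb : 0 < b) (h : a.Coprime b) :
    rc S (a * b) ≤ rc S a * rc S b := by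
  classical
  unfold rc
  rw [← card_product]
  refine card_le_card_of_injOn (fun c : ℤ => (c % (a : ℤ), c % (b : ℤ))) ?_ ?_
  · intro c hc
    obtain ⟨x, hx, rfl⟩ := mem_image.1 (mem_coe.1 hc)
    rw [mem_coe, mem_product, mem_image, mem_image]
    refine ⟨⟨x, hx, ?_⟩, ⟨x, hx, ?_⟩⟩
    · simp only
      rw [Int.emod_emod_of_dvd _ (by push_cast; exact Dvd.intro _ rfl)]
    · simp only
      rw [Int.emod_emod_of_dvd _ (by push_cast; exact Dvd.intro_left _ rfl)]
  · intro c hc c' hc' he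
    obtain ⟨x, hx, rfl⟩ := mem_image.1 (mem_coe.1 hc)
    obtain ⟨y, hy, rfl⟩ := mem_image.1 (mem_coe.1 hc')
    simp only [Prod.mk.injEq] at he
    set u := x % ((a * b : ℕ) : ℤ) with hu
    set v := y % ((a * b : ℕ) : ℤ) with hv
    have hab : (0 : ℤ) < ((a * b : ℕ) : ℤ) := by exact_mod_cast Nat.mul_pos ha hb
    have u1 := Int.emod_nonneg x hab.ne'
    have u2 := Int.emod_lt_of_pos x hab
    have v1 := Int.emod_nonneg y hab.ne'
    have v2 := Int.emod_lt_of_pos y hab
    have d1 : (a : ℤ) ∣ u - v := Int.ModEq.dvd he.1.symm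
    have d2 : (b : ℤ) ∣ u - v := Int.ModEq.dvd he.2.symm
    have d3 : ((a * b : ℕ) : ℤ) ∣ u - v := by
      push_cast
      exact IsCoprime.mul_dvd (Nat.isCoprime_iff_coprime.2 h) d1 d2
    have h0 : u - v = 0 := by
      apply Int.eq_zero_of_abs_lt_dvd d3
      rw [abs_lt]
      constructor <;> omega
    omega

theorem card_le_rc {S : Finset ℤ} {X N : ℕ} (hN : 0 < N) (hS : ∀ x ∈ S, 0 ≤ x ∧ x ≤ X) :
    S.card ≤ rc S N * (X / N + 1) := by
  classical
  unfold rc
  rw [← card_range (X / N + 1), ← card_product]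
  refine card_le_card_of_injOn (fun x : ℤ => (x % (N : ℤ), (x / (N : ℤ)).toNat)) ?_ ?_
  · intro x hx
    obtain ⟨h0, h1⟩ := hS x hx
    rw [mem_coe, mem_product, mem_range]
    refine ⟨mem_image_of_mem _ hx, ?_⟩
    simp only
    have h2 : x / (N : ℤ) ≤ (X : ℤ) / N := Int.ediv_le_ediv (by exact_mod_cast hN) h1
    have h3 : (0 : ℤ) ≤ (X : ℤ) / N := by positivity
    omega
  · intro x hx y hy he
    obtain ⟨h0, h1⟩ := hS x hx
    obtain ⟨h2, h3⟩ := hS y hy
    simp only [Prod.mk.injEq] at he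
    have hNz : (0 : ℤ) < N := by exact_mod_cast hN
    have h4 := Int.ediv_nonneg h0 hNz.le
    have h5 := Int.ediv_nonneg h2 hNz.le
    have h6 : x / (N : ℤ) = y / N := by omega
    have h7 := Int.emod_add_mul_ediv x N
    have h8 := Int.emod_add_mul_ediv y N
    rw [he.1, h6] at h7
    linarith

/-- bad moduli -/
def Bad (S : Finset ℤ) (j : ℕ) : Prop := 2 * rc S j ≤ j

theorem Bad.two_le {S : Finset ℤ} (hS : S.Nonempty) {j : ℕ} (h : Bad S j) : 2 ≤ j := by
  have := rc_pos hS j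
  unfold Bad at h
  omega

theorem rc_prod {S : Finset ℤ} (hS : S.Nonempty) (F : Finset ℕ) (hF : ∀ j ∈ F, Bad S j)
    (hc : ∀ i ∈ F, ∀ j ∈ F, i ≠ j → i.Coprime j) :
    2 ^ F.card * rc S (∏ j ∈ F, j) ≤ ∏ j ∈ F, j := by
  classical
  induction F using Finset.induction_on with
  | empty =>
    simp only [card_empty, pow_zero, prod_empty, one_mul]
    unfold rc
    rw [card_le_one]
    intro a ha b hb
    obtain ⟨x, -, rfl⟩ := mem_image.1 ha
    obtain ⟨y, -, rfl⟩ := mem_image.1 hb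
    simp
  | insert a F haF ih =>
    have ih' := ih (fun j hj => hF j (mem_insert_of_mem hj))
      (fun i hi j hj => hc i (mem_insert_of_mem hi) j (mem_insert_of_mem hj))
    rw [card_insert_of_notMem haF, prod_insert haF]
    have hcop : a.Coprime (∏ j ∈ F, j) := by
      apply Nat.Coprime.prod_right
      intro j hj
      exact hc a (mem_insert_self a F) j (mem_insert_of_mem hj) (by rintro rfl; exact haF hj)
    have ha0 : 0 < a := lt_of_lt_of_le (by norm_num) ((hF a (mem_insert_self a F)).two_le hS)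
    have hP0 : 0 < ∏ j ∈ F, j := prod_pos fun j hj =>
      lt_of_lt_of_le (by norm_num) ((hF j (mem_insert_of_mem hj)).two_le hS)
    have h1 := rc_mul (S := S) ha0 hP0 hcop
    have h2 : 2 * rc S a ≤ a := hF a (mem_insert_self a F)
    calc 2 ^ (F.card + 1) * rc S (a * ∏ j ∈ F, j)
        ≤ 2 ^ (F.card + 1) * (rc S a * rc S (∏ j ∈ F, j)) := Nat.mul_le_mul_left _ h1
      _ = (2 * rc S a) * (2 ^ F.card * rc S (∏ j ∈ F, j)) := by ring
      _ ≤ a * ∏ j ∈ F, j := Nat.mul_le_mul h2 ih'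

theorem few_bad {S : Finset ℤ} {X Y k : ℕ} (hS : S.Nonempty) (hSX : ∀ x ∈ S, 0 ≤ x ∧ x ≤ X)
    (F : Finset ℕ) (hF : ∀ j ∈ F, Bad S j ∧ j ≤ Y)
    (hc : ∀ i ∈ F, ∀ j ∈ F, i ≠ j → i.Coprime j) (h1 : Y ^ k ≤ X) (h2 : 2 * X < 2 ^ k * S.card) :
    F.card < k := by
  classical
  by_contra hcon
  push Not at hcon
  obtain ⟨F', hF', hk⟩ := exists_subset_card_eq hcon
  have h3 := rc_prod hS F' (fun j hj => (hF j (hF' hj)).1)
    (fun i hi j hj => hc i (hF' hi) j (hF' hj))
  set N := ∏ j ∈ F', j with hN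
  have hN0 : 0 < N := prod_pos fun j hj =>
    lt_of_lt_of_le (by norm_num) ((hF j (hF' hj)).1.two_le hS)
  have h4 : N ≤ Y ^ k := by
    rw [← hk]
    exact prod_le_pow_card _ _ _ fun j hj => (hF j (hF' hj)).2
  have h5 := card_le_rc hN0 hSX
  have h6 : 2 ^ k * S.card ≤ N * (X / N + 1) := by
    rw [hk] at h3
    calc 2 ^ k * S.card ≤ 2 ^ k * (rc S N * (X / N + 1)) := Nat.mul_le_mul_left _ h5
      _ = (2 ^ k * rc S N) * (X / N + 1) := by ring
      _ ≤ N * (X / N + 1) := Nat.mul_le_mul_right _ h3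
  have h7 : N * (X / N + 1) ≤ X + N := by
    have := Nat.mul_div_le X N
    rw [mul_add, mul_one]
    omega
  omega

/-- all the moduli prime to a suitable `h` are not bad -/
theorem exists_h {S : Finset ℤ} {X Y k : ℕ} (hS : S.Nonempty) (hSX : ∀ x ∈ S, 0 ≤ x ∧ x ≤ X)
    (hY : 1 ≤ Y) (h1 : Y ^ k ≤ X) (h2 : 2 * X < 2 ^ k * S.card) :
    ∃ h : ℕ, 0 < h ∧ h ≤ Y ^ k ∧ ∀ j, 1 ≤ j → j ≤ Y → j.Coprime h → j < 2 * rc S j := by
  classical
  set U : Finset (Finset ℕ) := (range (Y + 1)).powerset.filter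
    (fun F => (∀ j ∈ F, Bad S j ∧ j ≤ Y) ∧ ∀ i ∈ F, ∀ j ∈ F, i ≠ j → i.Coprime j) with hU
  have hUne : U.Nonempty := ⟨∅, by simp [hU]⟩
  obtain ⟨F, hFU, hmax⟩ := exists_max_image U card hUne
  rw [hU, mem_filter, mem_powerset] at hFU
  obtain ⟨hF0, hF1, hF2⟩ := hFU
  refine ⟨∏ j ∈ F, j, ?_, ?_, ?_⟩
  · exact prod_pos fun j hj => lt_of_lt_of_le (by norm_num) ((hF1 j hj).1.two_le hS)
  · have h3 := few_bad hS hSX F hF1 hF2 h1 h2
    calc ∏ j ∈ F, j ≤ Y ^ F.card := prod_le_pow_card _ _ _ fun j hj => (hF1 j hj).2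
      _ ≤ Y ^ k := Nat.pow_le_pow_right hY h3.le
  · intro j hj1 hjY hcop
    by_contra hcon
    push Not at hcon
    have hbad : Bad S j := hcon
    have hj2 := hbad.two_le hS
    have hjc : ∀ i ∈ F, j.Coprime i := fun i hi =>
      Nat.Coprime.coprime_dvd_right (dvd_prod_of_mem _ hi) hcop
    have hjF : j ∉ F := by
      intro hj
      have := hjc j hj
      rw [Nat.coprime_self] at this
      omega
    have hmem : insert j F ∈ U := by
      rw [hU, mem_filter, mem_powerset]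
      refine ⟨?_, ?_, ?_⟩
      · intro i hi
        rcases mem_insert.1 hi with rfl | hi
        · rw [mem_range]; omega
        · exact hF0 hi
      · intro i hi
        rcases mem_insert.1 hi with rfl | hi
        · exact ⟨hbad, hjY⟩
        · exact hF1 i hi
      · intro i hi l hl hne
        rcases mem_insert.1 hi with hi | hi
        · rcases mem_insert.1 hl with hl | hl
          · exact absurd (hi.trans hl.symm) hne
          · rw [hi]; exact hjc l hl
        · rcases mem_insert.1 hl with hl | hl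
          · rw [hl]; exact (hjc i hi).symm
          · exact hF2 i hi l hl hne
    have h3 := hmax _ hmem
    rw [card_insert_of_notMem hjF] at h3
    omega

/-- the differences which are divisible by `j` -/
theorem fibre {S : Finset ℤ} {n j : ℕ} :
    ((n • S - n • S).filter (fun a : ℤ => (j : ℤ) ∣ a)).card * rc S j ≤
      ((n + 1) • S - n • S).card := by
  classical
  have hch : ∀ c : ℤ, ∃ x : ℤ, c ∈ S.image (fun x : ℤ => x % (j : ℤ)) → x ∈ S ∧ x % (j : ℤ) = c := by
    intro c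
    by_cases hc : c ∈ S.image (fun x : ℤ => x % (j : ℤ))
    · obtain ⟨x, hx, hxc⟩ := mem_image.1 hc
      exact ⟨x, fun _ => ⟨hx, hxc⟩⟩
    · exact ⟨0, fun h => absurd h hc⟩
  choose x hx using hch
  unfold rc
  rw [← card_product]
  refine card_le_card_of_injOn (fun q : ℤ × ℤ => q.1 + x q.2) ?_ ?_
  · intro q hq
    rw [mem_coe, mem_product, mem_filter] at hq
    obtain ⟨⟨h1, -⟩, h2⟩ := hq
    obtain ⟨h3, -⟩ := hx _ h2
    rw [mem_coe]
    have e : (n + 1) • S - n • S = (n • S - n • S) + S := by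
      rw [succ_nsmul, sub_add_eq_add_sub]
    rw [e]
    exact add_mem_add h1 h3
  · intro q hq q' hq' he
    rw [mem_coe, mem_product, mem_filter] at hq hq'
    obtain ⟨⟨-, h1⟩, h2⟩ := hq
    obtain ⟨⟨-, h1'⟩, h2'⟩ := hq'
    obtain ⟨-, h3⟩ := hx _ h2
    obtain ⟨-, h3'⟩ := hx _ h2'
    simp only at he
    have h4 : (q.1 + x q.2) % (j : ℤ) = q.2 := by
      rw [Int.add_emod, Int.emod_eq_zero_of_dvd h1, zero_add, Int.emod_emod_of_dvd _ dvd_rfl, h3]
    have h4' : (q'.1 + x q'.2) % (j : ℤ) = q'.2 := by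
      rw [Int.add_emod, Int.emod_eq_zero_of_dvd h1', zero_add, Int.emod_emod_of_dvd _ dvd_rfl, h3']
    have h5 : q.2 = q'.2 := by rw [← h4, ← h4', he]
    rw [h5] at he
    exact Prod.ext (by linarith) h5

theorem pr {S : Finset ℤ} (hS : S.Nonempty) {K : ℝ} (hK : ((S + S).card : ℝ) ≤ K * S.card)
    (m n : ℕ) : ((m • S - n • S).card : ℝ) ≤ K ^ (m + n) * S.card := by
  have h1 := pluennecke_ruzsa_inequality_nsmul_sub_nsmul_add hS S m n
  have h2 : ((m • S - n • S).card : ℝ) ≤ (((S + S).card : ℝ) / S.card) ^ (m + n) * S.card := by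
    have : (((m • S - n • S).card : ℚ≥0) : ℝ) ≤
        (((((S + S).card : ℚ≥0) / (S.card : ℚ≥0)) ^ (m + n) * (S.card : ℚ≥0) : ℚ≥0) : ℝ) := by
      exact_mod_cast h1
    push_cast at this
    exact this
  have hSpos : (0 : ℝ) < S.card := by exact_mod_cast hS.card_pos
  refine h2.trans (mul_le_mul_of_nonneg_right (pow_le_pow_left₀ (by positivity) ?_ _) hSpos.le)
  rw [div_le_iff₀ hSpos]
  exact hK

/-- the part prime to `h` -/
theorem exists_split (h : ℕ) (j : ℕ) (hj : 0 < j) :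
    ∃ e j', j = e * j' ∧ j'.Coprime h ∧ ∀ x : ℕ, x.Coprime h → x.Coprime e := by
  induction j using Nat.strong_induction_on with
  | _ j ih =>
    by_cases hc : j.Coprime h
    · exact ⟨1, j, (one_mul j).symm, hc, fun x _ => Nat.coprime_one_right x⟩
    · set g := Nat.gcd j h with hg
      have hg1 : g ≠ 1 := hc
      have hg0 : 0 < g := Nat.gcd_pos_of_pos_left h hj
      obtain ⟨j1, hj1⟩ := Nat.gcd_dvd_left j h
      rw [← hg] at hj1
      have hj10 : 0 < j1 := by
        rcases Nat.eq_zero_or_pos j1 with h0 | h0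
        · rw [h0, mul_zero] at hj1; omega
        · exact h0
      have hlt : j1 < j := by
        rw [hj1]
        have : 2 ≤ g := by omega
        nlinarith
      obtain ⟨e, j', he, hj', hx⟩ := ih j1 hlt hj10
      refine ⟨g * e, j', by rw [hj1, he, mul_assoc], hj', fun x hxh => ?_⟩
      exact Nat.Coprime.mul_right (Nat.Coprime.coprime_dvd_right (Nat.gcd_dvd_right j h) hxh)
        (hx x hxh)

/-- the number of moduli prime to `h` which divide a difference -/
theorem count_bad {D : Finset ℤ} {M Y h : ℕ} (hD : ∀ a ∈ D, |a| ≤ (Y * M : ℕ)) (hM : 0 < M) :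
    ((Ico M (2 * M)).filter (fun m : ℕ => m.Coprime h ∧ ∃ a ∈ D, a ≠ 0 ∧ (m : ℤ) ∣ a)).card ≤
      ∑ j ∈ (Icc 1 Y).filter (fun j : ℕ => j.Coprime h),
        (D.filter (fun a : ℤ => (j : ℤ) ∣ a)).card := by
  classical
  have hch : ∀ m : ℕ, ∃ q : (_ : ℕ) × ℤ, (m ∈ (Ico M (2 * M)).filter
      (fun m : ℕ => m.Coprime h ∧ ∃ a ∈ D, a ≠ 0 ∧ (m : ℤ) ∣ a)) →
      q ∈ ((Icc 1 Y).filter (fun j : ℕ => j.Coprime h)).sigma
        (fun j => D.filter (fun a : ℤ => (j : ℤ) ∣ a)) ∧
      m.Coprime h ∧ 0 < q.1 ∧ ∃ e : ℕ, 0 < e ∧ q.2.natAbs = m * (e * q.1) ∧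
        ∀ x : ℕ, x.Coprime h → x.Coprime e := by
    intro m
    by_cases hm : m ∈ (Ico M (2 * M)).filter
      (fun m : ℕ => m.Coprime h ∧ ∃ a ∈ D, a ≠ 0 ∧ (m : ℤ) ∣ a)
    · have hm' := hm
      rw [mem_filter, mem_Ico] at hm'
      obtain ⟨⟨hm1, hm2⟩, hmh, a, haD, ha0, hma⟩ := hm'
      have h1 : m ∣ a.natAbs := Int.natCast_dvd.1 hma
      obtain ⟨j, hj⟩ := h1
      have hanat : 0 < a.natAbs := Int.natAbs_pos.2 ha0
      have hj0 : 0 < j := by
        rcases Nat.eq_zero_or_pos j with h0 | h0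
        · rw [h0, mul_zero] at hj; omega
        · exact h0
      obtain ⟨e, j', he, hj', hx⟩ := exists_split h j hj0
      have hj'0 : 0 < j' := by
        rcases Nat.eq_zero_or_pos j' with h0 | h0
        · rw [h0, mul_zero] at he; omega
        · exact h0
      have he0 : 0 < e := by
        rcases Nat.eq_zero_or_pos e with h0 | h0
        · rw [h0, zero_mul] at he; omega
        · exact h0
      have hjY : j ≤ Y := by
        have h2 := hD a haD
        have h3 : a.natAbs ≤ Y * M := by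
          have : ((a.natAbs : ℕ) : ℤ) ≤ ((Y * M : ℕ) : ℤ) := by
            rw [Int.natCast_natAbs]
            exact h2
          exact_mod_cast this
        rw [hj] at h3
        have h4 : m * j ≤ m * Y := by
          calc m * j ≤ Y * M := h3
            _ ≤ Y * m := Nat.mul_le_mul_left _ hm1
            _ = m * Y := mul_comm _ _
        exact Nat.le_of_mul_le_mul_left h4 (by omega)
      have hj'j : j' ≤ j := by
        rw [he]
        exact Nat.le_mul_of_pos_left _ he0
      refine ⟨⟨j', a⟩, fun _ => ⟨?_, hmh, hj'0, e, he0, by rw [hj, he], hx⟩⟩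
      rw [mem_sigma, mem_filter, mem_Icc, mem_filter]
      refine ⟨⟨⟨hj'0, hj'j.trans hjY⟩, hj'⟩, haD, ?_⟩
      rw [Int.natCast_dvd, hj, he]
      exact Dvd.dvd.mul_left (Dvd.intro_left _ rfl) _
    · exact ⟨⟨0, 0⟩, fun h' => absurd h' hm⟩
  choose q hq using hch
  rw [← card_sigma]
  refine card_le_card_of_injOn q ?_ ?_
  · intro m hm
    exact (hq m hm).1
  · intro m hm m' hm' he
    obtain ⟨-, h1, h2, e, he0, h3, h4⟩ := hq m hm
    obtain ⟨-, h1', h2', e', he0', h3', h4'⟩ := hq m' hm'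
    rw [← he] at h3' h2'
    have h5 : m * e = m' * e' := by
      have h6 : (m * e) * (q m).1 = (m' * e') * (q m).1 := by
        rw [mul_assoc, mul_assoc, ← h3, ← h3']
      exact Nat.eq_of_mul_eq_mul_right h2 h6
    have h6 : m ∣ m' := (h4' m h1).dvd_of_dvd_mul_right (by rw [← h5]; exact Dvd.intro _ rfl)
    have h7 : m' ∣ m := (h4 m' h1').dvd_of_dvd_mul_right (by rw [h5]; exact Dvd.intro _ rfl)
    exact Nat.dvd_antisymm h6 h7

/-- a lower bound for Euler's function -/
theorem prod_one_sub (P : Finset ℕ) (hP : ∀ p ∈ P, 2 ≤ p) :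
    1 ≤ (∏ p ∈ P, (1 - (p : ℝ)⁻¹)) * (P.card + 1) := by
  classical
  induction P using Finset.induction_on_max with
  | empty => simp
  | insert a P hmax ih =>
    have ha : a ∉ P := fun h => absurd (hmax a h) (lt_irrefl a)
    have ih' := ih fun p hp => hP p (mem_insert_of_mem hp)
    rw [prod_insert ha, card_insert_of_notMem ha]
    have hcard : P.card + 2 ≤ a := by
      have h1 : P ⊆ Ico 2 a := fun p hp => mem_Ico.2 ⟨hP p (mem_insert_of_mem hp), hmax p hp⟩
      have h2 := card_le_card h1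
      rw [Nat.card_Ico] at h2
      have := hP a (mem_insert_self a P)
      omega
    have hPc : (0 : ℝ) ≤ P.card := Nat.cast_nonneg _
    have ha' : ((P.card : ℝ) + 2) ≤ a := by exact_mod_cast hcard
    have h3 : (a : ℝ)⁻¹ ≤ ((P.card : ℝ) + 2)⁻¹ := inv_anti₀ (by positivity) ha'
    have h4 : ((P.card : ℝ) + 1) / (P.card + 2) ≤ 1 - (a : ℝ)⁻¹ := by
      have : ((P.card : ℝ) + 1) / (P.card + 2) = 1 - ((P.card : ℝ) + 2)⁻¹ := by
        field_simp
        ring
      rw [this]
      linarith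
    push_cast
    have h5 : ((P.card : ℝ) + 1) / (P.card + 2) * (P.card + 1 + 1) = P.card + 1 := by
      field_simp
      ring
    have h6 : 0 ≤ ∏ p ∈ P, (1 - (p : ℝ)⁻¹) := prod_nonneg fun p hp => by
      have h7 : (2 : ℝ) ≤ p := by exact_mod_cast hP p (mem_insert_of_mem hp)
      have : (p : ℝ)⁻¹ ≤ 1 := inv_le_one_of_one_le₀ (by linarith)
      linarith
    calc (1 : ℝ) ≤ (∏ p ∈ P, (1 - (p : ℝ)⁻¹)) * (P.card + 1) := ih'
      _ = (∏ p ∈ P, (1 - (p : ℝ)⁻¹)) * (((P.card : ℝ) + 1) / (P.card + 2) * (P.card + 1 + 1)) := by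
          rw [h5]
      _ ≤ (∏ p ∈ P, (1 - (p : ℝ)⁻¹)) * ((1 - (a : ℝ)⁻¹) * (P.card + 1 + 1)) := by
          apply mul_le_mul_of_nonneg_left _ h6
          exact mul_le_mul_of_nonneg_right h4 (by positivity)
      _ = (1 - (a : ℝ)⁻¹) * (∏ p ∈ P, (1 - (p : ℝ)⁻¹)) * (P.card + 1 + 1) := by ring

theorem totient_ge {h : ℕ} : (h : ℝ) ≤ Nat.totient h * (h.primeFactors.card + 1) := by
  have h1 := Nat.totient_eq_mul_prod_factors h
  have h2 : (Nat.totient h : ℝ) = h * ∏ p ∈ h.primeFactors, (1 - (p : ℝ)⁻¹) := by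
    have : ((Nat.totient h : ℚ) : ℝ) = ((h * ∏ p ∈ h.primeFactors, (1 - (p : ℚ)⁻¹) : ℚ) : ℝ) := by
      exact_mod_cast h1
    push_cast at this
    exact this
  have h3 := prod_one_sub h.primeFactors fun p hp => (Nat.prime_of_mem_primeFactors hp).two_le
  rw [h2, mul_assoc]
  exact le_mul_of_one_le_right (Nat.cast_nonneg _) h3

theorem two_pow_primeFactors {h : ℕ} (h0 : 0 < h) : 2 ^ h.primeFactors.card ≤ h := by
  calc 2 ^ h.primeFactors.card ≤ ∏ p ∈ h.primeFactors, p :=
        pow_card_le_prod _ _ _ fun p hp => (Nat.prime_of_mem_primeFactors hp).two_le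
    _ ≤ h := Nat.le_of_dvd h0 (Nat.prod_primeFactors_dvd h)

/-- the numbers prime to `h` in an interval -/
theorem card_coprime (h a q : ℕ) :
    ((Ico a (a + h * q)).filter (fun m => m.Coprime h)).card = q * Nat.totient h := by
  classical
  induction q with
  | zero => simp
  | succ q ih =>
    have e : Ico a (a + h * (q + 1)) = Ico a (a + h * q) ∪ Ico (a + h * q) (a + h * q + h) := by
      rw [mul_add, mul_one, ← add_assoc, Ico_union_Ico_eq_Ico (by omega) (by omega)]
    rw [e, filter_union, card_union_of_disjoint, ih]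
    · have h1 := Nat.filter_coprime_Ico_eq_totient h (a + h * q)
      have h2 : (Ico (a + h * q) (a + h * q + h)).filter (fun m => m.Coprime h) =
          (Ico (a + h * q) (a + h * q + h)).filter (fun m => h.Coprime m) :=
        filter_congr fun m _ => Nat.coprime_comm
      rw [h2]
      have h3 : a + h * q + h = (a + h * q) + h := rfl
      rw [h1]
      ring
    · apply disjoint_filter_filter
      exact Ico_disjoint_Ico_consecutive _ _ _

end Pool.Agent.H602.MD
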