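import Pool.Agent.H602.KS.Small

/-!
# Freiman isomorphisms of order `n`, and compressing them
-/

set_option autoImplicit false

open Finset
open scoped Pointwise

namespace Pool.Agent.H602.MD

open Pool.Agent.H602.KS

/-- `φ` preserves and reflects the equalities of sums of `n` elements of `S` -/
def IsoN {G H : Type*} [AddCommMonoid G] [AddCommMonoid H] (n : ℕ) (S : Finset G) (φ : G → H) :
    Prop :=
  ∀ s t : Multiset G, (∀ x ∈ s, x ∈ S) → (∀ x ∈ t, x ∈ S) → s.card = n → t.card = n →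
    ((s.map φ).sum = (t.map φ).sum ↔ s.sum = t.sum)

section
variable {G H M : Type*} [AddCommGroup G] [AddCommGroup H] [AddCommGroup M] {n : ℕ}

theorem IsoN.comp [DecidableEq H] {S : Finset G} {φ : G → H} {ψ : H → M} (h : IsoN n S φ)
    (h' : IsoN n (S.image φ) ψ) : IsoN n S (fun x => ψ (φ x)) := by
  intro s t hs ht hsn htn
  have h1 := h' (s.map φ) (t.map φ) (by
    intro x hx
    obtain ⟨y, hy, rfl⟩ := Multiset.mem_map.1 hx
    exact mem_image_of_mem _ (hs y hy)) (by
    intro x hx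
    obtain ⟨y, hy, rfl⟩ := Multiset.mem_map.1 hx
    exact mem_image_of_mem _ (ht y hy)) (by rw [Multiset.card_map, hsn])
    (by rw [Multiset.card_map, htn])
  rw [Multiset.map_map, Multiset.map_map] at h1
  rw [← h s t hs ht hsn htn]
  exact h1

theorem IsoN.add {S : Finset G} {φ : G → H} (h : IsoN n S φ) (c : H) :
    IsoN n S (fun x => φ x + c) := by
  intro s t hs ht hsn htn
  rw [Multiset.sum_map_add, Multiset.sum_map_add, Multiset.map_const', Multiset.map_const',
    Multiset.sum_replicate, Multiset.sum_replicate, hsn, htn]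
  rw [← h s t hs ht hsn htn]
  exact add_left_inj _

/-- order `n` gives all smaller orders -/
theorem IsoN.two (hn : 2 ≤ n) {S : Finset G} {φ : G → H} (h : IsoN n S φ) {a b c d : G}
    (ha : a ∈ S) (hb : b ∈ S) (hc : c ∈ S) (hd : d ∈ S) :
    φ a + φ b = φ c + φ d ↔ a + b = c + d := by
  have h1 := h (a ::ₘ b ::ₘ Multiset.replicate (n - 2) a) (c ::ₘ d ::ₘ Multiset.replicate (n - 2) a)
    (by
      intro x hx
      simp only [Multiset.mem_cons, Multiset.mem_replicate] at hx
      rcases hx with rfl | rfl | ⟨-, rfl⟩ <;> assumption)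
    (by
      intro x hx
      simp only [Multiset.mem_cons, Multiset.mem_replicate] at hx
      rcases hx with rfl | rfl | ⟨-, rfl⟩ <;> assumption)
    (by simp only [Multiset.card_cons, Multiset.card_replicate]; omega)
    (by simp only [Multiset.card_cons, Multiset.card_replicate]; omega)
  simp only [Multiset.map_cons, Multiset.sum_cons, Multiset.map_replicate,
    Multiset.sum_replicate] at h1
  rw [← add_assoc, ← add_assoc, add_left_inj, ← add_assoc, ← add_assoc, add_left_inj] at h1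
  exact h1

theorem IsoN.inj (hn : 2 ≤ n) {S : Finset G} {φ : G → H} (h : IsoN n S φ) {a b : G}
    (ha : a ∈ S) (hb : b ∈ S) (hab : φ a = φ b) : a = b := by
  have := (h.two hn ha hb hb hb).1 (by rw [hab])
  exact add_right_cancel this

theorem IsoN.card_image [DecidableEq H] (hn : 2 ≤ n) {S : Finset G} {φ : G → H} (h : IsoN n S φ) :
    (S.image φ).card = S.card :=
  card_image_of_injOn fun _ ha _ hb hab => h.inj hn ha hb hab

theorem IsoN.card_sum [DecidableEq G] [DecidableEq H] (hn : 2 ≤ n) {S : Finset G} {φ : G → H}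
    (h : IsoN n S φ) : (S.image φ + S.image φ).card ≤ (S + S).card := by
  classical
  have hch : ∀ z : H, ∃ q : G × G, z ∈ S.image φ + S.image φ →
      q.1 ∈ S ∧ q.2 ∈ S ∧ φ q.1 + φ q.2 = z := by
    intro z
    by_cases hz : z ∈ S.image φ + S.image φ
    · obtain ⟨x, hx, y, hy, hxy⟩ := mem_add.1 hz
      obtain ⟨a, ha, rfl⟩ := mem_image.1 hx
      obtain ⟨b, hb, rfl⟩ := mem_image.1 hy
      exact ⟨(a, b), fun _ => ⟨ha, hb, hxy⟩⟩
    · exact ⟨(0, 0), fun h' => absurd h' hz⟩
  choose q hq using hch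
  refine card_le_card_of_injOn (fun z => (q z).1 + (q z).2) ?_ ?_
  · intro z hz
    obtain ⟨h1, h2, -⟩ := hq z hz
    exact add_mem_add h1 h2
  · intro z hz z' hz' he
    obtain ⟨h1, h2, h3⟩ := hq z hz
    obtain ⟨h1', h2', h3'⟩ := hq z' hz'
    have := (h.two hn h1 h2 h1' h2').2 he
    rw [h3, h3'] at this
    exact this

theorem IsoN.freiman [DecidableEq H] (hn : 2 ≤ n) {S : Finset G} {φ : G → H} (h : IsoN n S φ) :
    IsAddFreimanIso n (S : Set G) (S.image φ : Set H) φ where
  bijOn := by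
    refine ⟨fun x hx => ?_, fun a ha b hb hab => h.inj hn ha hb hab, fun y hy => ?_⟩
    · exact mem_coe.2 (mem_image_of_mem _ hx)
    · obtain ⟨x, hx, rfl⟩ := mem_image.1 (mem_coe.1 hy)
      exact ⟨x, hx, rfl⟩
  map_sum_eq_map_sum := fun s t hs ht hsn htn =>
    h s t (fun x hx => mem_coe.1 (hs hx)) (fun x hx => mem_coe.1 (ht hx)) hsn htn

end

/-- sums of many elements -/
theorem sum_mod {p : ℤ} {m : ℤ} {ψ : ℤ → ℤ} {S : Finset ℤ} {B N : ℤ}
    (h : ∀ x ∈ S, p ∣ ψ x - m * x ∧ B * |ψ x| ≤ N) (s : Multiset ℤ) (hs : ∀ x ∈ s, x ∈ S)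
    (hB : 0 ≤ B) :
    p ∣ (s.map ψ).sum - m * s.sum ∧ B * |(s.map ψ).sum| ≤ s.card * N := by
  induction s using Multiset.induction_on with
  | empty => simp
  | cons a s ih =>
    obtain ⟨h1, h2⟩ := ih fun x hx => hs x (Multiset.mem_cons_of_mem hx)
    obtain ⟨h3, h4⟩ := h a (hs a (Multiset.mem_cons_self a s))
    rw [Multiset.map_cons, Multiset.sum_cons, Multiset.sum_cons, Multiset.card_cons]
    constructor
    · have e : ψ a + (s.map ψ).sum - m * (a + s.sum) = (ψ a - m * a) + ((s.map ψ).sum - m * s.sum) := by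
        ring
      rw [e]
      exact dvd_add h3 h1
    · have h5 := abs_add_le (ψ a) (s.map ψ).sum
      have h6 : B * |ψ a + (s.map ψ).sum| ≤ B * (|ψ a| + |(s.map ψ).sum|) :=
        mul_le_mul_of_nonneg_left h5 hB
      push_cast
      linarith

theorem sum_bound {S : Finset ℤ} {l : ℤ} (h : ∀ x ∈ S, 0 ≤ x ∧ x ≤ l) (s : Multiset ℤ)
    (hs : ∀ x ∈ s, x ∈ S) : 0 ≤ s.sum ∧ s.sum ≤ s.card * l := by
  induction s using Multiset.induction_on with
  | empty => simp
  | cons a s ih =>
    obtain ⟨h1, h2⟩ := ih fun x hx => hs x (Multiset.mem_cons_of_mem hx)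
    obtain ⟨h3, h4⟩ := h a (hs a (Multiset.mem_cons_self a s))
    rw [Multiset.sum_cons, Multiset.card_cons]
    push_cast
    constructor
    · linarith
    · linarith

/-- Dirichlet's theorem -/
theorem exists_mult' {p : ℕ} (hp : p.Prime) {r : ℕ} (v : Fin r → ℤ) (q : Fin r → ℕ)
    (hq : ∀ i, 0 < q i) (T : Finset ℤ) {w : ℕ} (hw : 0 < w) (hbox : (∏ i, q i) * w ^ T.card < p) :
    ∃ l : ℤ, ¬ (p : ℤ) ∣ l ∧ (∀ i, ∃ e : ℤ, (p : ℤ) ∣ e - l * v i ∧ |e| * q i < p) ∧
      ∀ t ∈ T, ∃ e : ℤ, (p : ℤ) ∣ e - l * t ∧ |e| * w < p := by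
  classical
  have hp0 : 0 < p := hp.pos
  have hpz : (0 : ℤ) < p := by exact_mod_cast hp0
  let val : ℕ → ℤ → ℕ := fun l g => ((l : ℤ) * g % p).toNat
  have hval : ∀ l g, (val l g : ℤ) = (l : ℤ) * g % p := fun l g =>
    Int.toNat_of_nonneg (Int.emod_nonneg _ hpz.ne')
  have hvlt : ∀ l g, val l g < p := by
    intro l g
    have := Int.emod_lt_of_pos ((l : ℤ) * g) hpz
    have h2 := hval l g
    omega
  let F : ℕ → (Fin r → ℕ) × (T → ℕ) := fun l =>
    (fun i => val l (v i) * q i / p, fun t => val l t * w / p)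
  let B : Finset ((Fin r → ℕ) × (T → ℕ)) :=
    (Fintype.piFinset fun i => range (q i)) ×ˢ (Fintype.piFinset fun _ : T => range w)
  have hcard : B.card < (range p).card := by
    simp only [B, card_product, Fintype.card_piFinset, card_range, prod_const, card_univ,
      Fintype.card_coe]
    exact hbox
  have hmaps : ∀ l ∈ range p, F l ∈ B := by
    intro l _
    simp only [B, F, mem_product, Fintype.mem_piFinset, mem_range]
    constructor
    · intro i
      rw [Nat.div_lt_iff_lt_mul hp0, mul_comm]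
      exact Nat.mul_lt_mul_of_pos_left (hvlt l (v i)) (hq i)
    · intro t
      rw [Nat.div_lt_iff_lt_mul hp0, mul_comm]
      exact Nat.mul_lt_mul_of_pos_left (hvlt l t) hw
  obtain ⟨l₁, h₁, l₂, h₂, hne, heq⟩ := exists_ne_map_eq_of_card_lt_of_maps_to hcard hmaps
  rw [mem_range] at h₁ h₂
  simp only [F, Prod.mk.injEq] at heq
  obtain ⟨he1, he2⟩ := heq
  have hdv : ∀ g : ℤ, (p : ℤ) ∣ ((val l₁ g : ℤ) - val l₂ g) - ((l₁ : ℤ) - l₂) * g := by
    intro g
    rw [hval, hval]
    have h3 := Int.emod_add_mul_ediv ((l₁ : ℤ) * g) p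
    have h4 := Int.emod_add_mul_ediv ((l₂ : ℤ) * g) p
    refine ⟨(l₂ : ℤ) * g / p - (l₁ : ℤ) * g / p, ?_⟩
    linear_combination h3 - h4
  refine ⟨(l₁ : ℤ) - l₂, ?_, fun i => ⟨(val l₁ (v i) : ℤ) - val l₂ (v i), hdv _, ?_⟩,
    fun t ht => ⟨(val l₁ t : ℤ) - val l₂ t, hdv _, ?_⟩⟩
  · intro hdvd
    have h5 : (l₁ : ℤ) - l₂ = 0 := by
      apply Int.eq_zero_of_abs_lt_dvd hdvd
      rw [abs_lt]
      omega
    exact hne (by omega)
  · exact same_box (congrFun he1 i) hp0
  · have := same_box (congrFun he2 ⟨t, ht⟩) hp0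
    exact_mod_cast this

/-- one step: a smaller copy -/
theorem shrinkN {n : ℕ} (hn : 1 ≤ n) {p : ℕ} (hp : p.Prime) {S : Finset ℤ} {l : ℕ}
    (hS : ∀ x ∈ S, 0 ≤ x ∧ x ≤ l)
    (hpl : n * l < p) {r : ℕ} (v : Fin r → ℤ) (L : Fin r → ℕ) (T : Finset ℤ)
    (hcov : ∀ a ∈ S, ∃ t ∈ T, ∃ c : Fin r → ℤ, (∀ i, |c i| ≤ L i) ∧ a = t + ∑ i, c i • v i)
    (hbox : (∏ i, 16 * n * r * (2 * L i + 1)) * (32 * n + 1) ^ T.card < p) :
    ∃ ψ : ℤ → ℤ, IsoN n S ψ ∧ ∀ a ∈ S, 16 * n * |ψ a| ≤ p := by
  classical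
  obtain ⟨m, hm, hv, ht⟩ := exists_mult' hp v (fun i => 16 * n * r * (2 * L i + 1)) (by
    intro i
    have : 0 < r := lt_of_le_of_lt (Nat.zero_le _) i.2
    positivity) T (w := 32 * n + 1) (by omega) hbox
  choose e he1 he2 using hv
  have hn0 : (0 : ℤ) < n := by exact_mod_cast hn
  have hch : ∀ a : ℤ, ∃ y : ℤ, a ∈ S → (p : ℤ) ∣ y - m * a ∧ 16 * n * |y| ≤ p := by
    intro a
    by_cases ha : a ∈ S
    · obtain ⟨t, htT, c, hc, hac⟩ := hcov a ha
      obtain ⟨f, hf1, hf2⟩ := ht t htT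
      refine ⟨f + ∑ i, c i * e i, fun _ => ⟨?_, ?_⟩⟩
      · have h1 : f + ∑ i, c i * e i - m * a = (f - m * t) + ∑ i, c i * (e i - m * v i) := by
          rw [hac]
          simp only [smul_eq_mul, mul_sub, sum_sub_distrib, mul_add, mul_sum]
          have : ∑ i, m * (c i * v i) = ∑ i, c i * (m * v i) :=
            sum_congr rfl fun i _ => by ring
          rw [this]
          ring
        rw [h1]
        exact dvd_add hf1 (dvd_sum fun i _ => Dvd.dvd.mul_left (he1 i) _)
      · have h2 : |∑ i, c i * e i| ≤ ∑ i, (L i : ℤ) * |e i| := by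
          refine (abs_sum_le_sum_abs _ _).trans (sum_le_sum fun i _ => ?_)
          rw [abs_mul]
          exact mul_le_mul_of_nonneg_right (hc i) (abs_nonneg _)
        have h3 : 32 * (n : ℤ) * ∑ i, (L i : ℤ) * |e i| ≤ p := by
          rcases Nat.eq_zero_or_pos r with h0 | h0
          · subst h0
            simp
          · have h4 : ∀ i ∈ (univ : Finset (Fin r)), 32 * (n : ℤ) * (r : ℤ) * ((L i : ℤ) * |e i|) ≤ p := by
              intro i _
              have h5 := he2 i
              push_cast at h5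
              have h6 : 0 ≤ |e i| * (16 * n * (r : ℤ)) := by positivity
              nlinarith
            have h7 := sum_le_sum h4
            rw [← mul_sum, sum_const, card_univ, Fintype.card_fin, nsmul_eq_mul] at h7
            have h8 : (0 : ℤ) < r := by exact_mod_cast h0
            have h9 : (r : ℤ) * (32 * n * ∑ i, (L i : ℤ) * |e i|) ≤ r * p := by
              calc (r : ℤ) * (32 * n * ∑ i, (L i : ℤ) * |e i|)
                  = 32 * n * (r : ℤ) * ∑ i, (L i : ℤ) * |e i| := by ring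
                _ ≤ r * p := h7
            exact le_of_mul_le_mul_left h9 h8
        have h10 := abs_add_le f (∑ i, c i * e i)
        push_cast at hf2
        have h11 : 32 * (n : ℤ) * |f| ≤ p := by
          have := abs_nonneg f
          nlinarith
        have h12 : 32 * (n : ℤ) * |f + ∑ i, c i * e i| ≤ 32 * n * (|f| + ∑ i, (L i : ℤ) * |e i|) := by
          apply mul_le_mul_of_nonneg_left _ (by positivity)
          exact h10.trans (add_le_add le_rfl h2)
        have h13 : 32 * (n : ℤ) * |f + ∑ i, c i * e i| ≤ 2 * p := by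
          refine h12.trans ?_
          rw [mul_add]
          linarith
        have h14 : 32 * (n : ℤ) * |f + ∑ i, c i * e i| = 2 * (16 * n * |f + ∑ i, c i * e i|) := by ring
        rw [h14] at h13
        linarith
    · exact ⟨0, fun h => absurd h ha⟩
  choose ψ hψ using hch
  have hpz : (0 : ℤ) < p := by exact_mod_cast hp.pos
  refine ⟨ψ, ?_, fun a ha => (hψ a ha).2⟩
  intro s t hs ht' hsn htn
  obtain ⟨⟨k1, hk1⟩, hb1⟩ := sum_mod (p := p) (m := m) (B := 16 * n) (N := p) hψ s hs (by positivity)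
  obtain ⟨⟨k2, hk2⟩, hb2⟩ := sum_mod (p := p) (m := m) (B := 16 * n) (N := p) hψ t ht' (by positivity)
  rw [hsn] at hb1
  rw [htn] at hb2
  have c1 : 16 * |(s.map ψ).sum| ≤ p := by
    have : (n : ℤ) * (16 * |(s.map ψ).sum|) ≤ n * p := by linarith
    exact le_of_mul_le_mul_left this hn0
  have c2 : 16 * |(t.map ψ).sum| ≤ p := by
    have : (n : ℤ) * (16 * |(t.map ψ).sum|) ≤ n * p := by linarith
    exact le_of_mul_le_mul_left this hn0
  obtain ⟨d1, d2⟩ := sum_bound (l := l) hS s hs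
  obtain ⟨d3, d4⟩ := sum_bound (l := l) hS t ht'
  rw [hsn] at d2
  rw [htn] at d4
  have hpl' : (n : ℤ) * l < p := by exact_mod_cast hpl
  have e1 : (s.map ψ).sum - (t.map ψ).sum = m * (s.sum - t.sum) + p * (k1 - k2) := by
    linear_combination hk1 - hk2
  constructor
  · intro h
    have h1 : (p : ℤ) ∣ m * (s.sum - t.sum) := by
      refine ⟨-(k1 - k2), ?_⟩
      linear_combination (-1 : ℤ) * e1 + h
    have h2 : (p : ℤ) ∣ s.sum - t.sum := by
      rcases (Nat.prime_iff_prime_int.1 hp).dvd_or_dvd h1 with h3 | h3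
      · exact absurd h3 hm
      · exact h3
    have h3 : s.sum - t.sum = 0 := by
      apply Int.eq_zero_of_abs_lt_dvd h2
      rw [abs_lt]
      constructor <;> linarith
    linarith
  · intro h
    have h1 : (p : ℤ) ∣ (s.map ψ).sum - (t.map ψ).sum := by
      refine ⟨k1 - k2, ?_⟩
      rw [e1, h]
      ring
    have h2 : (s.map ψ).sum - (t.map ψ).sum = 0 := by
      apply Int.eq_zero_of_abs_lt_dvd h1
      have x1 := abs_le.1 (le_refl |(s.map ψ).sum|)
      have x2 := abs_le.1 (le_refl |(t.map ψ).sum|)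
      rw [abs_lt]
      constructor <;> omega
    linarith

end Pool.Agent.H602.MD
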