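import Mathlib

/-!
# Subsets of cyclic groups of prime order may need exponentially large models
-/

set_option autoImplicit false

open Finset
open scoped Pointwise

namespace Pool.Agent.H602.MD

universe u

theorem sq_le_two_pow (k : ℕ) : k * k ≤ 2 ^ (k + 1) := by
  induction k with
  | zero => simp
  | succ k ih =>
    rcases Nat.lt_or_ge k 3 with h | h
    · interval_cases k <;> norm_num
    · have h1 : (k + 1) * (k + 1) = k * k + (2 * k + 1) := by ring
      have h2 : 2 * k + 1 ≤ k * k := by nlinarith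
      rw [h1, pow_succ]
      omega

theorem lower (k : ℕ) (hk : 1 ≤ k) :
    ∃ (p : ℕ) (S : Finset (ZMod p)), p.Prime ∧ S.Nonempty ∧ (S + S).card ≤ (k + 2) * S.card ∧
      ∀ (H : Type u) [AddCommGroup H] [Finite H] (φ : ZMod p → H) (B : Set H),
        IsAddFreimanIso 2 (S : Set (ZMod p)) B φ → 2 ^ k * S.card ≤ 4 * Nat.card H := by
  classical
  obtain ⟨p, hp4, hp⟩ := Nat.exists_infinite_primes (2 ^ k * 2 ^ k + 1)
  set N := (p + 2 ^ k - 1) / 2 ^ k with hN
  have h2k : 2 ≤ 2 ^ k := by
    calc 2 = 2 ^ 1 := (pow_one 2).symm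
      _ ≤ 2 ^ k := Nat.pow_le_pow_right (by norm_num) hk
  have hN1 : p ≤ 2 ^ k * N := by
    have h1 := Nat.div_add_mod (p + 2 ^ k - 1) (2 ^ k)
    have h2 := Nat.mod_lt (p + 2 ^ k - 1) (show 0 < 2 ^ k by omega)
    rw [← hN] at h1
    omega
  have hN2 : 2 ^ k * N < p + 2 ^ k := by
    have h1 := Nat.mul_div_le (p + 2 ^ k - 1) (2 ^ k)
    rw [← hN] at h1
    omega
  have hN3 : 2 ^ k < N := by
    by_contra hcon
    push Not at hcon
    have := Nat.mul_le_mul_left (2 ^ k) hcon
    omega
  have hNp : N < p := by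
    by_contra hcon
    push Not at hcon
    have h1 : 2 ^ k * p ≤ 2 ^ k * N := Nat.mul_le_mul_left _ hcon
    have h2 : 2 * p ≤ 2 ^ k * p := Nat.mul_le_mul_right _ h2k
    have h3 : 2 ^ k ≤ 2 ^ k * 2 ^ k := Nat.le_mul_of_pos_left _ (by omega)
    omega
  have : Fact p.Prime := ⟨hp⟩
  set A : Finset (ZMod p) := (range (N + 1)).image (fun j : ℕ => (j : ZMod p)) with hA
  set B : Finset (ZMod p) := (Ico 1 k).image (fun i : ℕ => ((2 ^ i * N : ℕ) : ZMod p)) with hB
  have hAcard : A.card = N + 1 := by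
    rw [hA, card_image_of_injOn, card_range]
    intro a ha b hb hab
    rw [mem_coe, mem_range] at ha hb
    simp only at hab
    rw [ZMod.natCast_eq_natCast_iff'] at hab
    rwa [Nat.mod_eq_of_lt (by omega), Nat.mod_eq_of_lt (by omega)] at hab
  have hBcard : B.card ≤ k - 1 := by
    refine card_image_le.trans ?_
    rw [Nat.card_Ico]
  have hAA : (A + A).card ≤ 2 * N + 1 := by
    have h1 : A + A ⊆ (range (2 * N + 1)).image (fun j : ℕ => (j : ZMod p)) := by
      intro z hz
      obtain ⟨x, hx, y, hy, rfl⟩ := mem_add.1 hz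
      obtain ⟨i, hi, rfl⟩ := mem_image.1 hx
      obtain ⟨j, hj, rfl⟩ := mem_image.1 hy
      rw [mem_range] at hi hj
      exact mem_image.2 ⟨i + j, mem_range.2 (by omega), by push_cast; rfl⟩
    refine (card_le_card h1).trans (card_image_le.trans ?_)
    rw [card_range]
  refine ⟨p, A ∪ B, hp, ?_, ?_, ?_⟩
  · have : A.Nonempty := by
      rw [← card_pos, hAcard]
      omega
    exact this.mono subset_union_left
  · have h1 : (A ∪ B) + (A ∪ B) ⊆ ((A + A) ∪ (A + B)) ∪ (B + B) := by
      intro z hz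
      obtain ⟨x, hx, y, hy, rfl⟩ := mem_add.1 hz
      rcases mem_union.1 hx with hx | hx
      · rcases mem_union.1 hy with hy | hy
        · exact mem_union_left _ (mem_union_left _ (add_mem_add hx hy))
        · exact mem_union_left _ (mem_union_right _ (add_mem_add hx hy))
      · rcases mem_union.1 hy with hy | hy
        · rw [add_comm x y]
          exact mem_union_left _ (mem_union_right _ (add_mem_add hy hx))
        · exact mem_union_right _ (add_mem_add hx hy)
    have h2 := (card_le_card h1).trans (card_union_le _ _)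
    have h3 := card_union_le (A + A) (A + B)
    have h4 : (A + B).card ≤ (N + 1) * (k - 1) := by
      refine card_add_le.trans ?_
      rw [hAcard]
      exact Nat.mul_le_mul_left _ hBcard
    have h5 : (B + B).card ≤ (k - 1) * (k - 1) := card_add_le.trans (Nat.mul_le_mul hBcard hBcard)
    have h6 : N + 1 ≤ (A ∪ B).card := by
      rw [← hAcard]
      exact card_le_card subset_union_left
    have h7 : (k - 1) * (k - 1) ≤ 2 ^ (k - 1 + 1) := sq_le_two_pow (k - 1)
    rw [show k - 1 + 1 = k by omega] at h7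
    have h8 : (k + 2) * (N + 1) ≤ (k + 2) * (A ∪ B).card := Nat.mul_le_mul_left _ h6
    obtain ⟨j, rfl⟩ : ∃ j, k = j + 1 := ⟨k - 1, by omega⟩
    rw [show j + 1 - 1 = j by omega] at h4 h5 h7
    have h9 : (j + 1 + 2) * (N + 1) = (N + 1) * j + 3 * (N + 1) := by ring
    omega
  · intro H _ _ φ B' hφ
    have hS2 : ∀ a ∈ A ∪ B, ∀ b ∈ A ∪ B, ∀ c ∈ A ∪ B, ∀ d ∈ A ∪ B, a + b = c + d →
        φ a + φ b = φ c + φ d := by
      intro a ha b hb c hc d hd h
      exact (hφ.add_eq_add (mem_coe.2 ha) (mem_coe.2 hb) (mem_coe.2 hc) (mem_coe.2 hd)).2 h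
    have hmA : ∀ j : ℕ, j ≤ N → ((j : ℕ) : ZMod p) ∈ A ∪ B := fun j hj =>
      mem_union_left _ (mem_image.2 ⟨j, mem_range.2 (by omega), rfl⟩)
    set b : H := φ ((1 : ℕ) : ZMod p) - φ ((0 : ℕ) : ZMod p) with hb
    have hb0 : b ≠ 0 := by
      intro h0
      have h1 : φ ((1 : ℕ) : ZMod p) = φ ((0 : ℕ) : ZMod p) := sub_eq_zero.1 h0
      have h2 := hφ.bijOn.injOn (mem_coe.2 (hmA 1 (by omega))) (mem_coe.2 (hmA 0 (by omega))) h1
      rw [Nat.cast_one, Nat.cast_zero] at h2
      exact one_ne_zero h2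
    have hlin : ∀ j : ℕ, j ≤ N → φ ((j : ℕ) : ZMod p) = φ ((0 : ℕ) : ZMod p) + j • b := by
      intro j
      induction j with
      | zero =>
        intro _
        rw [zero_nsmul, add_zero]
      | succ j ih =>
        intro hj
        have h1 := hS2 _ (hmA (j + 1) hj) _ (hmA 0 (by omega)) _ (hmA j (by omega)) _ (hmA 1 (by omega))
          (by push_cast; ring)
        rw [ih (by omega)] at h1
        rw [succ_nsmul, hb, eq_sub_of_add_eq h1]
        abel
    have hpow : ∀ i : ℕ, i ≤ k → ((2 ^ i * N : ℕ) : ZMod p) ∈ A ∪ B ∧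
        φ ((2 ^ i * N : ℕ) : ZMod p) = φ ((0 : ℕ) : ZMod p) + (2 ^ i * N) • b := by
      intro i
      induction i with
      | zero =>
        intro _
        rw [pow_zero, one_mul]
        exact ⟨hmA N le_rfl, hlin N le_rfl⟩
      | succ i ih =>
        intro hi
        obtain ⟨h1, h2⟩ := ih (by omega)
        have h3 : ((2 ^ (i + 1) * N : ℕ) : ZMod p) ∈ A ∪ B := by
          rcases Nat.lt_or_ge (i + 1) k with h | h
          · exact mem_union_right _ (mem_image.2 ⟨i + 1, mem_Ico.2 ⟨by omega, h⟩, rfl⟩)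
          · have h4 : i + 1 = k := by omega
            rw [h4]
            have h5 : ((2 ^ k * N : ℕ) : ZMod p) = ((2 ^ k * N - p : ℕ) : ZMod p) := by
              rw [Nat.cast_sub hN1, ZMod.natCast_self, sub_zero]
            rw [h5]
            exact hmA _ (by omega)
        refine ⟨h3, ?_⟩
        have h4 := hS2 _ h3 _ (hmA 0 (by omega)) _ h1 _ h1 (by push_cast; ring)
        rw [h2] at h4
        rw [eq_sub_of_add_eq h4, show 2 ^ (i + 1) * N = 2 ^ i * N + 2 ^ i * N by ring, add_nsmul]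
        abel
    have hpb : p • b = 0 := by
      obtain ⟨-, h1⟩ := hpow k le_rfl
      have h5 : ((2 ^ k * N : ℕ) : ZMod p) = ((2 ^ k * N - p : ℕ) : ZMod p) := by
        rw [Nat.cast_sub hN1, ZMod.natCast_self, sub_zero]
      rw [h5, hlin _ (by omega)] at h1
      have h2 := add_left_cancel h1
      have h3 : (2 ^ k * N) • b = (2 ^ k * N - p) • b + p • b := by
        rw [← add_nsmul]
        congr 1
        omega
      rw [h3] at h2
      exact (left_eq_add.1 h2)
    have hord : addOrderOf b = p := addOrderOf_eq_prime hpb hb0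
    have hcard : p ≤ Nat.card H := by
      rw [← hord]
      exact Nat.le_of_dvd Nat.card_pos (addOrderOf_dvd_natCard b)
    have hS : (A ∪ B).card ≤ N + k := by
      have := card_union_le A B
      omega
    have hk2 : k < 2 ^ k := Nat.lt_two_pow_self
    have h1 : 2 ^ k * (A ∪ B).card ≤ 2 ^ k * (N + k) := Nat.mul_le_mul_left _ hS
    have h2 : 2 ^ k * (N + k) = 2 ^ k * N + 2 ^ k * k := by ring
    have h3 : 2 ^ k * k ≤ 2 ^ k * 2 ^ k := Nat.mul_le_mul_left _ hk2.le
    omega

end Pool.Agent.H602.MD
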