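import Pool.Agent.H602.MD.Comp
import Pool.Agent.H602.MD.Count

/-!
# Sets of small doubling in torsion-free groups have models in cyclic groups of polynomial size
-/

set_option autoImplicit false

open Finset
open scoped Pointwise

namespace Pool.Agent.H602.MD

/-- reduction modulo `m` -/
theorem isoN_cast {S : Finset ℤ} {n m : ℕ}
    (h : ∀ a ∈ n • S - n • S, a ≠ 0 → ¬ (m : ℤ) ∣ a) :
    IsoN n S (fun x : ℤ => (x : ZMod m)) := by
  intro s t hs ht hsn htn
  have e : ∀ u : Multiset ℤ, (u.map (fun x : ℤ => (x : ZMod m))).sum = ((u.sum : ℤ) : ZMod m) := by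
    intro u
    exact (map_multiset_sum (Int.castRingHom (ZMod m)) u).symm
  rw [e, e, ZMod.intCast_eq_intCast_iff_dvd_sub]
  have h1 := sum_mem s hs
  have h2 := sum_mem t ht
  rw [hsn] at h1
  rw [htn] at h2
  constructor
  · intro hd
    by_contra hne
    exact h _ (sub_mem_sub h2 h1) (sub_ne_zero.2 (Ne.symm hne)) hd
  · intro he
    rw [he, sub_self]
    exact dvd_zero _

theorem diff_bound {S : Finset ℤ} {n X : ℕ} (hSX : ∀ x ∈ S, 0 ≤ x ∧ x ≤ X) :
    ∀ a ∈ n • S - n • S, |a| ≤ (n * X : ℕ) := by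
  have hs : ∀ k : ℕ, ∀ a ∈ k • S, 0 ≤ a ∧ a ≤ (k * X : ℕ) := by
    intro k
    induction k with
    | zero =>
      intro a ha
      rw [zero_nsmul] at ha
      have : a = 0 := by simpa using ha
      rw [this]
      simp
    | succ k ih =>
      intro a ha
      rw [succ_nsmul] at ha
      obtain ⟨b, hb, c, hc, rfl⟩ := mem_add.1 ha
      have h1 := ih b hb
      have h2 := hSX c hc
      push_cast at h1 ⊢
      constructor <;> linarith
  intro a ha
  obtain ⟨b, hb, c, hc, rfl⟩ := mem_sub.1 ha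
  have h1 := hs n b hb
  have h2 := hs n c hc
  rw [abs_le]
  constructor <;> linarith

/-- large sets -/
theorem large {S : Finset ℤ} (hS : S.Nonempty) {K : ℝ} (hK : ((S + S).card : ℝ) ≤ K * S.card)
    {n J k : ℕ} (hn : 1 ≤ n) (hJ : 1 ≤ J) (hSX : ∀ x ∈ S, 0 ≤ x ∧ x ≤ (J * S.card : ℕ))
    (hk : 2 * J < 2 ^ k) (hbig : (n * J) ^ k ≤ S.card) {w : ℝ} (hw : (k : ℝ) * Real.log (n * J) ≤ w) :
    ∃ m : ℕ, 0 < m ∧ (m : ℝ) ≤ (8 * (2 * w + 1) * (1 + Real.log (n * J)) + 2) * K ^ (2 * n + 1) * S.card ∧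
      ∀ a ∈ n • S - n • S, a ≠ 0 → ¬ (m : ℤ) ∣ a := by
  classical
  have hSpos : 0 < S.card := hS.card_pos
  have hSposR : (0 : ℝ) < S.card := by exact_mod_cast hSpos
  have hK1 : 1 ≤ K := one_le_K hS hK
  set Y := n * J with hY
  have hY1 : 1 ≤ Y := Nat.mul_pos hn hJ
  obtain ⟨h, h0, hle, hgood⟩ := exists_h (S := S) (X := J * S.card) (Y := Y) (k := k) hS hSX hY1
    (hbig.trans (Nat.le_mul_of_pos_left _ hJ))
    (by rw [← mul_assoc]; exact Nat.mul_lt_mul_of_pos_right hk hSpos)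
  set ω := h.primeFactors.card with hω
  have hYR : (1 : ℝ) ≤ Y := by exact_mod_cast hY1
  have hYcast : ((n : ℝ) * J) = Y := by rw [hY]; push_cast; rfl
  rw [hYcast] at hw ⊢
  have hlogY : 0 ≤ Real.log Y := Real.log_nonneg hYR
  have hωw : (ω : ℝ) ≤ 2 * w := by
    have h1 := (two_pow_primeFactors h0).trans hle
    have h2 : ((2 : ℝ) ^ ω) ≤ (Y : ℝ) ^ k := by exact_mod_cast h1
    have h3 := Real.log_le_log (by positivity) h2
    rw [Real.log_pow, Real.log_pow] at h3
    have h4 := Real.log_two_gt_d9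
    have h5 : (0 : ℝ) ≤ ω := Nat.cast_nonneg _
    nlinarith
  set R : ℝ := 2 * K ^ (2 * n + 1) * S.card * (1 + Real.log Y) with hR
  have hKp : 1 ≤ K ^ (2 * n + 1) := one_le_pow₀ hK1
  have hR1 : 2 * (S.card : ℝ) ≤ R := by
    rw [hR]
    have h1 : 2 * (S.card : ℝ) ≤ 2 * K ^ (2 * n + 1) * S.card := by nlinarith
    have h2 : 0 ≤ 2 * K ^ (2 * n + 1) * (S.card : ℝ) := by positivity
    nlinarith
  have hR0 : 0 < R := by linarith
  set q := ⌊((ω + 1 : ℝ) * R) / h⌋₊ + 1 with hq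
  have hhR : (0 : ℝ) < h := by exact_mod_cast h0
  have hq1 : (ω + 1 : ℝ) * R < h * q := by
    have := Nat.lt_floor_add_one (((ω + 1 : ℝ) * R) / h)
    rw [div_lt_iff₀ hhR] at this
    rw [hq]
    push_cast
    linarith
  have hq2 : (h * q : ℝ) ≤ (ω + 1 : ℝ) * R + h := by
    have h1 := Nat.floor_le (a := ((ω + 1 : ℝ) * R) / h) (by positivity)
    rw [le_div_iff₀ hhR] at h1
    rw [hq]
    push_cast
    linarith
  set M := h * q with hM
  have hMR : (M : ℝ) = h * q := by rw [hM]; push_cast; rfl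
  have hω0 : (0 : ℝ) ≤ ω := Nat.cast_nonneg _
  have hMS : S.card ≤ M := by
    have : (S.card : ℝ) ≤ M := by
      rw [hMR]
      have : R ≤ (ω + 1 : ℝ) * R := by nlinarith
      linarith
    exact_mod_cast this
  have hM0 : 0 < M := lt_of_lt_of_le hSpos hMS
  have hD : ∀ a ∈ n • S - n • S, |a| ≤ (Y * M : ℕ) := by
    intro a ha
    refine (diff_bound hSX a ha).trans ?_
    have : n * (J * S.card) ≤ Y * M := by
      rw [hY, ← mul_assoc]
      exact Nat.mul_le_mul_left _ hMS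
    exact_mod_cast this
  have hcb := count_bad (h := h) hD hM0
  -- the sum
  have hsum : ((∑ j ∈ (Icc 1 Y).filter (fun j : ℕ => j.Coprime h),
      ((n • S - n • S).filter (fun a : ℤ => (j : ℤ) ∣ a)).card : ℕ) : ℝ) ≤ R := by
    push_cast
    have h1 : ∀ j ∈ (Icc 1 Y).filter (fun j : ℕ => j.Coprime h),
        (((n • S - n • S).filter (fun a : ℤ => (j : ℤ) ∣ a)).card : ℝ) ≤
          2 * K ^ (2 * n + 1) * S.card * (j : ℝ)⁻¹ := by
      intro j hj
      rw [mem_filter, mem_Icc] at hj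
      obtain ⟨⟨hj1, hj2⟩, hj3⟩ := hj
      have h2 := hgood j hj1 hj2 hj3
      have h3 := fibre (S := S) (n := n) (j := j)
      have h4 := pr hS hK (n + 1) n
      have h5 : (((n • S - n • S).filter (fun a : ℤ => (j : ℤ) ∣ a)).card : ℝ) * rc S j ≤
          K ^ (2 * n + 1) * S.card := by
        have : (((n • S - n • S).filter (fun a : ℤ => (j : ℤ) ∣ a)).card : ℝ) * rc S j ≤
            (((n + 1) • S - n • S).card : ℝ) := by exact_mod_cast h3
        refine this.trans (h4.trans (le_of_eq ?_))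
        congr 2
        omega
      have hjR : (0 : ℝ) < j := by exact_mod_cast hj1
      rw [← div_eq_mul_inv, le_div_iff₀ hjR]
      have h6 : (j : ℝ) ≤ 2 * rc S j := by exact_mod_cast h2.le
      have h7 : (0 : ℝ) ≤ ((n • S - n • S).filter (fun a : ℤ => (j : ℤ) ∣ a)).card :=
        Nat.cast_nonneg _
      calc (((n • S - n • S).filter (fun a : ℤ => (j : ℤ) ∣ a)).card : ℝ) * j
          ≤ (((n • S - n • S).filter (fun a : ℤ => (j : ℤ) ∣ a)).card : ℝ) * (2 * rc S j) :=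
            mul_le_mul_of_nonneg_left h6 h7
        _ = 2 * ((((n • S - n • S).filter (fun a : ℤ => (j : ℤ) ∣ a)).card : ℝ) * rc S j) := by ring
        _ ≤ 2 * (K ^ (2 * n + 1) * S.card) := by linarith
        _ = 2 * K ^ (2 * n + 1) * S.card := by ring
    refine (sum_le_sum h1).trans ?_
    have h2 : ∑ j ∈ (Icc 1 Y).filter (fun j : ℕ => j.Coprime h), 2 * K ^ (2 * n + 1) * S.card * (j : ℝ)⁻¹
        ≤ ∑ j ∈ Icc 1 Y, 2 * K ^ (2 * n + 1) * S.card * (j : ℝ)⁻¹ :=
      sum_le_sum_of_subset_of_nonneg (filter_subset _ _) fun j _ _ => by positivity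
    refine h2.trans ?_
    rw [← mul_sum, hR]
    apply mul_le_mul_of_nonneg_left _ (by positivity)
    have h3 := harmonic_le_one_add_log Y
    rw [harmonic_eq_sum_Icc] at h3
    push_cast at h3
    exact h3
  -- compare
  have hcount : (q * Nat.totient h : ℕ) = ((Ico M (2 * M)).filter (fun m => m.Coprime h)).card := by
    rw [← card_coprime h M q, two_mul]
  have hlt : ((Ico M (2 * M)).filter (fun m : ℕ => m.Coprime h ∧
      ∃ a ∈ n • S - n • S, a ≠ 0 ∧ (m : ℤ) ∣ a)).card <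
      ((Ico M (2 * M)).filter (fun m => m.Coprime h)).card := by
    rw [← hcount]
    have h1 : (((Ico M (2 * M)).filter (fun m : ℕ => m.Coprime h ∧
      ∃ a ∈ n • S - n • S, a ≠ 0 ∧ (m : ℤ) ∣ a)).card : ℝ) ≤ R :=
      le_trans (by exact_mod_cast hcb) hsum
    have h2 : R < ((q * Nat.totient h : ℕ) : ℝ) := by
      push_cast
      have h3 := totient_ge (h := h)
      have h4 : (h * q : ℝ) ≤ (Nat.totient h * (ω + 1)) * q :=
        mul_le_mul_of_nonneg_right h3 (Nat.cast_nonneg _)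
      have h5 : (ω + 1 : ℝ) * R < (ω + 1 : ℝ) * (q * Nat.totient h) := by
        calc (ω + 1 : ℝ) * R < h * q := hq1
          _ ≤ (Nat.totient h * (ω + 1)) * q := h4
          _ = (ω + 1 : ℝ) * (q * Nat.totient h) := by ring
      exact lt_of_mul_lt_mul_left h5 (by positivity)
    exact_mod_cast lt_of_le_of_lt h1 h2
  obtain ⟨m, hm1, hm2⟩ : ∃ m ∈ (Ico M (2 * M)).filter (fun m => m.Coprime h),
      m ∉ (Ico M (2 * M)).filter (fun m : ℕ => m.Coprime h ∧
      ∃ a ∈ n • S - n • S, a ≠ 0 ∧ (m : ℤ) ∣ a) := by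
    by_contra hcon
    push Not at hcon
    exact absurd (card_le_card hcon) (not_le.2 hlt)
  rw [mem_filter, mem_Ico] at hm1
  obtain ⟨⟨hm3, hm4⟩, hm5⟩ := hm1
  refine ⟨m, by omega, ?_, ?_⟩
  · have h1 : (m : ℝ) ≤ 2 * M := by exact_mod_cast hm4.le
    have h2 : (h : ℝ) ≤ S.card := by exact_mod_cast hle.trans hbig
    have h3 : (m : ℝ) ≤ 2 * ((ω + 1 : ℝ) * R) + 2 * S.card := by
      rw [hMR] at h1
      linarith
    refine h3.trans ?_
    have h4 : (ω + 1 : ℝ) * R ≤ (2 * w + 1) * R :=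
      mul_le_mul_of_nonneg_right (by linarith) hR0.le
    have h5 : 2 * (S.card : ℝ) ≤ 2 * K ^ (2 * n + 1) * S.card := by nlinarith
    have hw0 : 0 ≤ 2 * w + 1 := by linarith
    have h6 : 0 ≤ (2 * w + 1) * R := mul_nonneg hw0 hR0.le
    calc 2 * ((ω + 1 : ℝ) * R) + 2 * S.card ≤ 2 * ((2 * w + 1) * R) + 2 * K ^ (2 * n + 1) * S.card := by
          linarith
      _ ≤ 4 * ((2 * w + 1) * R) + 2 * K ^ (2 * n + 1) * S.card := by linarith
      _ = (8 * (2 * w + 1) * (1 + Real.log Y) + 2) * K ^ (2 * n + 1) * S.card := by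
          rw [hR]
          ring
  · intro a ha ha0 hdvd
    apply hm2
    rw [mem_filter, mem_Ico]
    exact ⟨⟨hm3, hm4⟩, hm5, a, ha, ha0, hdvd⟩

/-- Chebyshev -/
theorem theta_big {M : ℕ} (hM : 20000000 ≤ M) : (M : ℝ) / 4 < Chebyshev.theta M := by
  have h1 := Chebyshev.theta_ge M
  have hMR : (20000000 : ℝ) ≤ M := by exact_mod_cast hM
  have hM0 : (0 : ℝ) < M := by linarith
  have h2 := Real.log_two_gt_d9
  set x : ℝ := (M : ℝ) ^ ((1 : ℝ) / 4) with hx
  have hx0 : 0 < x := by positivity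
  have hx4 : x ^ 4 = M := by
    rw [hx, ← Real.rpow_natCast, ← Real.rpow_mul hM0.le]
    norm_num
  have hx2 : √(M : ℝ) = x ^ 2 := by
    rw [← hx4]
    rw [show x ^ 4 = (x ^ 2) ^ 2 by ring]
    exact Real.sqrt_sq (by positivity)
  have hlog : Real.log M ≤ 4 * x := by
    have := Real.log_le_rpow_div hM0.le (show (0 : ℝ) < 1 / 4 by norm_num)
    rw [← hx] at this
    linarith
  have hlog1 : Real.log (M + 1) ≤ 4 * x + 1 := by
    have h3 : Real.log ((M : ℝ) + 1) ≤ Real.log (2 * M) := Real.log_le_log (by linarith) (by linarith)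
    rw [Real.log_mul (by norm_num) hM0.ne'] at h3
    have := Real.log_two_lt_d9
    linarith
  have hx64 : 66 ≤ x := by
    by_contra hcon
    push Not at hcon
    have : x ^ 4 < 66 ^ 4 := pow_lt_pow_left₀ hcon hx0.le (by norm_num)
    rw [hx4] at this
    linarith
  rw [hx2] at h1
  have h4 : 2 * x ^ 2 * Real.log M ≤ 8 * x ^ 3 := by nlinarith [sq_nonneg x]
  have h5 : 8 * x ^ 3 ≤ x ^ 4 / 8 := by
    have : 0 ≤ x ^ 3 * (x - 64) := mul_nonneg (by positivity) (by linarith)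
    nlinarith
  have h6 : 4 * x + 1 ≤ x ^ 4 / 100 := by
    have h7 : (66 : ℝ) ^ 3 ≤ x ^ 3 := pow_le_pow_left₀ (by norm_num) hx64 3
    have h8 : x ^ 4 = x ^ 3 * x := by ring
    nlinarith
  rw [hx4] at h5 h6
  nlinarith

/-- small sets -/
theorem small {S : Finset ℤ} (hS : S.Nonempty) {K : ℝ} (hK : ((S + S).card : ℝ) ≤ K * S.card)
    {n X : ℕ} (hSX : ∀ x ∈ S, 0 ≤ x ∧ x ≤ X) (hX : 1 ≤ n * X) {M : ℕ} (hM : 20000000 ≤ M)
    (hMb : 4 * (K ^ (2 * n) * S.card * Real.log (n * X : ℕ)) ≤ M) :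
    ∃ m : ℕ, m.Prime ∧ m ≤ M ∧ ∀ a ∈ n • S - n • S, a ≠ 0 → ¬ (m : ℤ) ∣ a := by
  classical
  by_contra hcon
  push Not at hcon
  have h1 := theta_big hM
  rw [Chebyshev.theta_eq_log_primorial, Nat.floor_natCast] at h1
  have h2 : primorial M ∣ ∏ a ∈ (n • S - n • S).erase 0, a.natAbs := by
    unfold primorial
    apply Finset.prod_primes_dvd
    · intro p hp
      rw [mem_filter] at hp
      exact hp.2.prime
    · intro p hp
      rw [mem_filter, mem_range] at hp
      obtain ⟨a, ha, ha0, hd⟩ := hcon p hp.2 (by omega)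
      exact (Int.natCast_dvd.1 hd).trans (dvd_prod_of_mem _ (mem_erase.2 ⟨ha0, ha⟩))
  have hpos : 0 < ∏ a ∈ (n • S - n • S).erase 0, a.natAbs :=
    prod_pos fun a ha => Int.natAbs_pos.2 (mem_erase.1 ha).1
  have h3 : (primorial M : ℝ) ≤ ∏ a ∈ (n • S - n • S).erase 0, (a.natAbs : ℝ) := by
    exact_mod_cast Nat.le_of_dvd hpos h2
  have h4 := Real.log_le_log (by exact_mod_cast primorial_pos M) h3
  rw [Real.log_prod (fun a ha => by
    have := Int.natAbs_pos.2 (mem_erase.1 ha).1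
    positivity)] at h4
  have hlogX : 0 ≤ Real.log (n * X : ℕ) := Real.log_nonneg (by exact_mod_cast hX)
  have h5 : ∑ a ∈ (n • S - n • S).erase 0, Real.log (a.natAbs : ℝ) ≤
      ∑ a ∈ (n • S - n • S).erase 0, Real.log (n * X : ℕ) := by
    refine sum_le_sum fun a ha => ?_
    rw [mem_erase] at ha
    apply Real.log_le_log
    · exact_mod_cast Int.natAbs_pos.2 ha.1
    · have h6 := diff_bound hSX a ha.2
      have : a.natAbs ≤ n * X := by
        have : ((a.natAbs : ℕ) : ℤ) ≤ ((n * X : ℕ) : ℤ) := by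
          rw [Int.natCast_natAbs]
          exact h6
        exact_mod_cast this
      exact_mod_cast this
  rw [sum_const, nsmul_eq_mul] at h5
  have h6 : (((n • S - n • S).erase 0).card : ℝ) ≤ K ^ (2 * n) * S.card := by
    have h7 : (((n • S - n • S).erase 0).card : ℝ) ≤ ((n • S - n • S).card : ℝ) := by
      exact_mod_cast card_le_card (erase_subset _ _)
    refine h7.trans ((pr hS hK n n).trans (le_of_eq ?_))
    rw [two_mul]
  have h7 := mul_le_mul_of_nonneg_right h6 hlogX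
  linarith

end Pool.Agent.H602.MD
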